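import Pool.Agent.Lib.MP_a221bc_multi.Lower

/-!
# The functions of the reduction
-/

set_option linter.unusedSimpArgs false

namespace Pool.Agent.Lib.MultiMCSP

open Pool.Agent.Lib.EsopHard

/-! ## Definitions -/

/-- point of a vertex (`2 b + 4` bits) -/
def pl (b u : ℕ) : List Bool := gray (b + 1) u ++ List.replicate (b + 3) false

/-- point of an edge, without its first bit (`2 b + 3` bits) -/
def rl (b : ℕ) (e : ℕ × ℕ) : List Bool := gray (b + 1) e.1 ++ (gray (b + 1) e.2 ++ [false])

/-- negation of a coordinate -/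
def fnot (i : ℕ) (x : List Bool) : Bool := !(x.getD i false)

/-- indicator of a subcube -/
def fcube (σ x : List Bool) : Bool := decide (x.take σ.length = σ)

/-- indicator of the difference of two subcubes -/
def fD (σ x : List Bool) : Bool := fcube [true, false] x && !fcube (true :: false :: σ) x

/-- auxiliary function of a vertex and an edge -/
def fg (b u : ℕ) (e : ℕ × ℕ) (x : List Bool) : Bool := fcube (false :: pl b u) x || fD (rl b e) x

/-- function of a vertex -/
def fh (b u : ℕ) (x : List Bool) : Bool := fcube (false :: pl b u) x || fcube [true, true] x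

/-- function of an edge -/
def fo (b : ℕ) (e : ℕ × ℕ) (x : List Bool) : Bool := fh b e.1 x || fg b e.2 e x

/-- the known functions -/
def known (b : ℕ) (E : List (ℕ × ℕ)) : List (List Bool → Bool) :=
  (List.range (2 * b + 5)).map fnot ++
  (((List.range (2 * b + 5)).flatMap fun k => (points (k + 1)).map fcube) ++
  (((List.range (2 * b + 3)).flatMap fun k => (points (k + 1)).map fD) ++
  E.flatMap fun e => [fg b e.1 e, fg b e.2 e]))

/-- all the outputs -/
def outs (b : ℕ) (E : List (ℕ × ℕ)) : List (List Bool → Bool) := known b E ++ E.map (fo b)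

/-- restriction to the cube -/
def res (n : ℕ) (f : List Bool → Bool) : P n → Bool := fun x => f x.1

theorem mem_known {b : ℕ} {E : List (ℕ × ℕ)} {f : List Bool → Bool} : f ∈ known b E ↔
    (∃ i < 2 * b + 5, f = fnot i) ∨ (∃ σ : List Bool, 1 ≤ σ.length ∧ σ.length ≤ 2 * b + 5 ∧ f = fcube σ) ∨
    (∃ σ : List Bool, 1 ≤ σ.length ∧ σ.length ≤ 2 * b + 3 ∧ f = fD σ) ∨
    ∃ e ∈ E, f = fg b e.1 e ∨ f = fg b e.2 e := by
  have key : ∀ (N : ℕ) (F : List Bool → List Bool → Bool),
      (∃ a < N, ∃ a_1 ∈ points (a + 1), F a_1 = f) ↔ ∃ σ : List Bool, 1 ≤ σ.length ∧ σ.length ≤ N ∧ f = F σ := by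
    intro N F
    constructor
    · rintro ⟨k, hk, σ, hσ, rfl⟩
      have := mem_points.1 hσ
      exact ⟨σ, by omega, by omega, rfl⟩
    · rintro ⟨σ, h1, h2, rfl⟩
      exact ⟨σ.length - 1, by omega, σ, mem_points.2 (by omega), rfl⟩
  simp only [known, List.mem_append, List.mem_map, List.mem_flatMap, List.mem_range, key,
    List.mem_cons, List.not_mem_nil, or_false]
  constructor
  · rintro (⟨i, hi, rfl⟩ | h | h | h)
    · exact Or.inl ⟨i, hi, rfl⟩
    · exact Or.inr (Or.inl h)
    · exact Or.inr (Or.inr (Or.inl h))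
    · exact Or.inr (Or.inr (Or.inr h))
  · rintro (⟨i, hi, rfl⟩ | h | h | h)
    · exact Or.inl ⟨i, hi, rfl⟩
    · exact Or.inr (Or.inl h)
    · exact Or.inr (Or.inr (Or.inl h))
    · exact Or.inr (Or.inr (Or.inr h))

/-! ## Lists of bits -/

theorem length_pl (b u : ℕ) : (pl b u).length = 2 * b + 4 := by
  simp only [pl, List.length_append, length_gray, List.length_replicate]
  ring

theorem length_rl (b : ℕ) (e : ℕ × ℕ) : (rl b e).length = 2 * b + 3 := by
  simp only [rl, List.length_append, length_gray, List.length_singleton]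
  ring

theorem fcube_cons (s : Bool) (τ : List Bool) (z : Bool) (y : List Bool) :
    fcube (s :: τ) (z :: y) = (decide (z = s) && decide (y.take τ.length = τ)) := by
  simp only [fcube, List.length_cons, List.take_succ_cons, List.cons.injEq]
  by_cases h1 : z = s <;> by_cases h2 : y.take τ.length = τ <;> simp [h1, h2]

theorem take_eq_self {y τ : List Bool} (h : y.length = τ.length) : y.take τ.length = τ ↔ y = τ := by
  rw [← h, List.take_length]

/-- a bit of the end is true -/
def Q (m : ℕ) (y : List Bool) : Prop := y.getD (m - 1) false = true ∨ y.getD (m - 2) false = true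

theorem pl_not_Q (b u : ℕ) : ¬ Q (2 * b + 4) (pl b u) := by
  have h : ∀ i, b + 1 ≤ i → (pl b u).getD i false = false := by
    intro i hi
    rw [pl, List.getD_eq_getElem?_getD, List.getElem?_append_right (by rw [length_gray]; exact hi),
      List.getElem?_replicate]
    split_ifs <;> rfl
  rintro (h1 | h1)
  · rw [h _ (by omega)] at h1
    simp at h1
  · rw [h _ (by omega)] at h1
    simp at h1

theorem rl_last (b : ℕ) (e : ℕ × ℕ) : (false :: rl b e).getD (2 * b + 4 - 1) false = false := by
  rw [rl, ← List.append_assoc, ← List.cons_append]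
  exact getD_append_last _ _ (by
    simp only [List.length_cons, List.length_append, length_gray]
    omega)

theorem gray_inj' {k x y : ℕ} (hx : x < 2 ^ k) (hy : y < 2 ^ k) (h : gray k x = gray k y) : x = y := by
  have := gray_inj _ _ _ h
  rwa [Nat.mod_eq_of_lt hx, Nat.mod_eq_of_lt hy] at this

theorem pl_inj {b u v : ℕ} (hu : u < 2 ^ (b + 1)) (hv : v < 2 ^ (b + 1)) (h : pl b u = pl b v) : u = v :=
  gray_inj' hu hv (List.append_inj_left h (by rw [length_gray, length_gray]))

theorem rl_inj {b : ℕ} {e e' : ℕ × ℕ} (h1 : e.1 < 2 ^ (b + 1)) (h2 : e.2 < 2 ^ (b + 1))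
    (h1' : e'.1 < 2 ^ (b + 1)) (h2' : e'.2 < 2 ^ (b + 1)) (h : rl b e = rl b e') : e = e' := by
  obtain ⟨h3, h4⟩ := List.append_inj h (by rw [length_gray, length_gray])
  obtain ⟨h5, -⟩ := List.append_inj h4 (by rw [length_gray, length_gray])
  exact Prod.ext (gray_inj' h1 h1' h3) (gray_inj' h2 h2' h5)

/-! ## The known functions -/

/-- properties of the known functions -/
structure Good (m : ℕ) (f : List Bool → Bool) : Prop where
  h0 : (∀ y : List Bool, y.length = m → f (false :: y) = false) ∨
    (∃ y : List Bool, y.length = m ∧ Q m y ∧ f (false :: y) = true) ∨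
    ((∀ y y' : List Bool, y.length = m → y'.length = m → f (false :: y) = true → f (false :: y') = true →
      y = y') ∧ f (true :: List.replicate m true) = false)
  h1 : (∀ y : List Bool, y.length = m → f (true :: y) = true) ∨
    ∃ y : List Bool, y.length = m ∧ (y.getD 0 false = true ∨ y.getD (m - 1) false = true) ∧ f (true :: y) = false
  h2 : (∀ y : List Bool, y.length = m → f (false :: y) = true) ∨
    ∃ y : List Bool, y.length = m ∧ Q m y ∧ f (false :: y) = false

theorem getD_replicate' (m i : ℕ) (c : Bool) (h : i < m) : (List.replicate m c).getD i false = c := by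
  rw [List.getD_eq_getElem?_getD, List.getElem?_replicate, if_pos h]
  rfl

theorem Q_trues {m : ℕ} (h : 1 ≤ m) : Q m (List.replicate m true) :=
  Or.inl (getD_replicate' m _ true (by omega))

theorem good_coord {m : ℕ} (hm : 2 ≤ m) {i : ℕ} (hi : i < m + 1) : Good m fun x => x.getD i false := by
  rcases i with _ | j
  · refine ⟨Or.inl fun y _ => rfl, Or.inl fun y _ => rfl, Or.inr ⟨List.replicate m true, by simp, Q_trues (by omega), rfl⟩⟩
  · have hj : j < m := by omega
    have e : ∀ (z : Bool) (y : List Bool), (z :: y).getD (j + 1) false = y.getD j false := fun z y => by simp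
    refine ⟨Or.inr (Or.inl ⟨List.replicate m true, by simp, Q_trues (by omega), ?_⟩), Or.inr ?_, Or.inr ?_⟩
    · rw [e]
      exact getD_replicate' m j true hj
    · rcases j with _ | j
      · refine ⟨false :: List.replicate (m - 1) true, by simp; omega, Or.inr ?_, ?_⟩
        · obtain ⟨k, rfl⟩ : ∃ k, m = k + 2 := ⟨m - 2, by omega⟩
          simp only [Nat.add_sub_cancel, Nat.succ_sub_succ_eq_sub, Nat.sub_zero]
          rw [List.getD_cons_succ]
          exact getD_replicate' _ _ true (by omega)
        · simp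
      · refine ⟨true :: List.replicate (m - 1) false, by simp; omega, Or.inl (by simp), ?_⟩
        rw [e, List.getD_cons_succ]
        exact getD_replicate' _ _ false (by omega)
    · by_cases h : j = m - 1
      · refine ⟨List.replicate (m - 1) true ++ [false], by simp; omega, Or.inr ?_, ?_⟩
        · rw [getD_append_left' (by simp; omega)]
          exact getD_replicate' _ _ true (by omega)
        · rw [e]
          exact getD_append_last _ _ (by simp; omega)
      · refine ⟨List.replicate (m - 1) false ++ [true], by simp; omega, Or.inl ?_, ?_⟩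
        · exact getD_append_last _ _ (by simp)
        · rw [e, getD_append_left' (by simp; omega)]
          exact getD_replicate' _ _ false (by omega)

theorem good_not {m : ℕ} (hm : 2 ≤ m) {i : ℕ} (hi : i < m + 1) : Good m (fnot i) := by
  rcases i with _ | j
  · refine ⟨Or.inr (Or.inl ⟨List.replicate m true, by simp, Q_trues (by omega), rfl⟩),
      Or.inr ⟨List.replicate m true, by simp, Or.inl (getD_replicate' m 0 true (by omega)), rfl⟩, Or.inl fun y _ => rfl⟩
  · have hj : j < m := by omega
    have e : ∀ (z : Bool) (y : List Bool), fnot (j + 1) (z :: y) = !(y.getD j false) := fun z y => by simp [fnot]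
    refine ⟨Or.inr (Or.inl ?_), Or.inr ⟨List.replicate m true, by simp,
      Or.inl (getD_replicate' m 0 true (by omega)), ?_⟩,
      Or.inr ⟨List.replicate m true, by simp, Q_trues (by omega), ?_⟩⟩
    · by_cases h : j = m - 1
      · refine ⟨List.replicate (m - 1) true ++ [false], by simp; omega, Or.inr ?_, ?_⟩
        · rw [getD_append_left' (by simp; omega)]
          exact getD_replicate' _ _ true (by omega)
        · rw [e, getD_append_last _ _ (by simp; omega)]
          rfl
      · refine ⟨List.replicate (m - 1) false ++ [true], by simp; omega, Or.inl ?_, ?_⟩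
        · exact getD_append_last _ _ (by simp)
        · rw [e, getD_append_left' (by simp; omega), getD_replicate' _ _ false (by omega)]
          rfl
    · rw [e, getD_replicate' m j true hj]
      rfl
    · rw [e, getD_replicate' m j true hj]
      rfl

theorem flip_head {m : ℕ} (hm : 2 ≤ m) (t : Bool) (τ : List Bool) :
    ((!t) :: List.replicate (m - 1) true).length = m ∧
    ((!t) :: List.replicate (m - 1) true).getD (m - 1) false = true ∧
    ((!t) :: List.replicate (m - 1) true).take (t :: τ).length ≠ t :: τ := by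
  refine ⟨by simp; omega, ?_, ?_⟩
  · obtain ⟨k, rfl⟩ : ∃ k, m = k + 2 := ⟨m - 2, by omega⟩
    have : k + 2 - 1 = k + 1 := rfl
    rw [this, List.getD_cons_succ]
    exact getD_replicate' _ _ true (by omega)
  · rw [List.length_cons, List.take_succ_cons]
    intro h
    have := (List.cons.inj h).1
    cases t <;> simp at this

theorem good_cube {m : ℕ} (hm : 2 ≤ m) {σ : List Bool} (h1 : 1 ≤ σ.length) (h2 : σ.length ≤ m + 1) :
    Good m (fcube σ) := by
  rcases σ with _ | ⟨s, τ⟩
  · simp at h1
  rw [List.length_cons] at h2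
  have hτ : τ.length ≤ m := by omega
  have hQ : ∀ y : List Bool, y.getD (m - 1) false = true → Q m y := fun y h => Or.inl h
  cases s
  · have e0 : ∀ y : List Bool, fcube (false :: τ) (false :: y) = decide (y.take τ.length = τ) := fun y => by
      rw [fcube_cons]; simp
    have e1 : ∀ y : List Bool, fcube (false :: τ) (true :: y) = false := fun y => by
      rw [fcube_cons]; simp
    refine ⟨?_, Or.inr ⟨List.replicate m true, by simp, Or.inl (getD_replicate' m 0 true (by omega)), e1 _⟩, ?_⟩
    · by_cases h3 : τ.length = m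
      · refine Or.inr (Or.inr ⟨fun y y' hy hy' h4 h5 => ?_, e1 _⟩)
        rw [e0, decide_eq_true_eq, take_eq_self (by rw [hy, h3])] at h4
        rw [e0, decide_eq_true_eq, take_eq_self (by rw [hy', h3])] at h5
        rw [h4, h5]
      · refine Or.inr (Or.inl ⟨τ ++ List.replicate (m - τ.length) true, by simp; omega, Or.inl ?_, ?_⟩)
        · rw [List.getD_eq_getElem?_getD, List.getElem?_append_right (by omega), List.getElem?_replicate,
            if_pos (by omega)]
          rfl
        · rw [e0]
          simp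
    · rcases τ with _ | ⟨t, τ⟩
      · exact Or.inl fun y _ => by rw [e0]; simp
      · obtain ⟨k1, k2, k3⟩ := flip_head hm t τ
        exact Or.inr ⟨_, k1, hQ _ k2, by rw [e0]; simp⟩
  · have e1 : ∀ y : List Bool, fcube (true :: τ) (true :: y) = decide (y.take τ.length = τ) := fun y => by
      rw [fcube_cons]; simp
    have e0 : ∀ y : List Bool, fcube (true :: τ) (false :: y) = false := fun y => by
      rw [fcube_cons]; simp
    refine ⟨Or.inl fun y _ => e0 y, ?_, Or.inr ⟨List.replicate m true, by simp, Q_trues (by omega), e0 _⟩⟩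
    rcases τ with _ | ⟨t, τ⟩
    · exact Or.inl fun y _ => by rw [e1]; simp
    · obtain ⟨k1, k2, k3⟩ := flip_head hm t τ
      exact Or.inr ⟨_, k1, Or.inr k2, by rw [e1]; simp⟩

theorem fD_false (σ y : List Bool) : fD σ (false :: y) = false := by
  rw [fD, fcube_cons]
  simp

theorem fD_trues {m : ℕ} (hm : 1 ≤ m) (σ : List Bool) : fD σ (true :: List.replicate m true) = false := by
  obtain ⟨k, rfl⟩ : ∃ k, m = k + 1 := ⟨m - 1, by omega⟩
  rw [fD, fcube_cons, List.replicate_succ]
  simp

theorem good_D {m : ℕ} (hm : 2 ≤ m) (σ : List Bool) : Good m (fD σ) :=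
  ⟨Or.inl fun y _ => fD_false σ y,
    Or.inr ⟨List.replicate m true, by simp, Or.inl (getD_replicate' m 0 true (by omega)), fD_trues (by omega) σ⟩,
    Or.inr ⟨List.replicate m true, by simp, Q_trues (by omega), fD_false σ _⟩⟩

theorem good_g (b u : ℕ) (e : ℕ × ℕ) : Good (2 * b + 4) (fg b u e) := by
  have e0 : ∀ y : List Bool, y.length = 2 * b + 4 → (fg b u e (false :: y) = true ↔ y = pl b u) := by
    intro y hy
    rw [fg, fD_false, Bool.or_false, fcube_cons]
    have := take_eq_self (y := y) (τ := pl b u) (by rw [hy, length_pl])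
    simp [this]
  have e1 : fg b u e (true :: List.replicate (2 * b + 4) true) = false := by
    rw [fg, fD_trues (by omega), fcube_cons]
    simp
  refine ⟨Or.inr (Or.inr ⟨fun y y' hy hy' h h' => ?_, e1⟩),
    Or.inr ⟨List.replicate _ true, by simp, Or.inl (getD_replicate' _ 0 true (by omega)), e1⟩,
    Or.inr ⟨List.replicate _ true, by simp, Q_trues (by omega), ?_⟩⟩
  · rw [(e0 y hy).1 h, (e0 y' hy').1 h']
  · rw [Bool.eq_false_iff]
    intro h
    have := (e0 _ (by simp)).1 h
    have h2 := pl_not_Q b u
    rw [← this] at h2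
    exact h2 (Q_trues (by omega))

theorem good_known {b : ℕ} {E : List (ℕ × ℕ)} {f : List Bool → Bool} (h : f ∈ known b E) :
    Good (2 * b + 4) f := by
  rcases mem_known.1 h with ⟨i, hi, rfl⟩ | ⟨σ, h1, h2, rfl⟩ | ⟨σ, -, -, rfl⟩ | ⟨e, -, rfl | rfl⟩
  · exact good_not (by omega) hi
  · exact good_cube (by omega) h1 h2
  · exact good_D (by omega) σ
  · exact good_g b _ e
  · exact good_g b _ e

/-! ## The functions of the edges -/

theorem fo_false {b : ℕ} {e : ℕ × ℕ} {y : List Bool} (hy : y.length = 2 * b + 4) :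
    fo b e (false :: y) = true ↔ y = pl b e.1 ∨ y = pl b e.2 := by
  have h1 := take_eq_self (y := y) (τ := pl b e.1) (by rw [hy, length_pl])
  have h2 := take_eq_self (y := y) (τ := pl b e.2) (by rw [hy, length_pl])
  simp only [fo, fh, fg, fD_false, fcube_cons, Bool.or_false]
  simp [h1, h2]

theorem fo_true {b : ℕ} {e : ℕ × ℕ} {y : List Bool} (hy : y.length = 2 * b + 4) :
    fo b e (true :: y) = true ↔ y ≠ false :: rl b e := by
  rcases y with _ | ⟨t, y⟩
  · simp at hy
  have hy' : y.length = (rl b e).length := by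
    rw [length_rl]
    simpa using hy
  have h1 := take_eq_self hy'
  simp only [fo, fh, fg, fD, fcube_cons, List.length_cons, List.take_succ_cons, List.length_nil, List.take_zero]
  cases t <;> simp [h1]

/-! ## The situation -/

/-- the list of edges is correct -/
def EdgesOk (b : ℕ) (E : List (ℕ × ℕ)) : Prop := ∀ e ∈ E, e.1 < e.2 ∧ e.2 < 2 ^ (b + 1)

/-- the four bits differ -/
theorem big4 {m : ℕ} (hm : 4 ≤ m) (a b c d : P m) : ∃ x : P m, x ≠ a ∧ x ≠ b ∧ x ≠ c ∧ x ≠ d := by
  let l : List Bool := (!(a.1.getD 0 false)) :: (!(b.1.getD 1 false)) :: (!(c.1.getD 2 false)) ::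
    (!(d.1.getD 3 false)) :: List.replicate (m - 4) false
  refine ⟨⟨l, by simp [l]; omega⟩, ?_, ?_, ?_, ?_⟩
  · intro h
    have := congrArg (fun x : P m => x.1.getD 0 false) h
    simp [l] at this
  · intro h
    have := congrArg (fun x : P m => x.1.getD 1 false) h
    simp [l] at this
  · intro h
    have := congrArg (fun x : P m => x.1.getD 2 false) h
    simp [l] at this
  · intro h
    have := congrArg (fun x : P m => x.1.getD 3 false) h
    simp [l] at this

theorem good_mem {b : ℕ} {E : List (ℕ × ℕ)} {F : P (2 * b + 5) → Bool}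
    (hF : F ∈ coords (2 * b + 5) ∪ {F | ∃ f ∈ known b E, F = res _ f}) :
    ∃ f, Good (2 * b + 4) f ∧ F = res _ f := by
  rcases hF with ⟨i, hi, rfl⟩ | ⟨f, hf, rfl⟩
  · exact ⟨fun x => x.getD i false, good_coord (by omega) hi, rfl⟩
  · exact ⟨f, good_known hf, rfl⟩

/-- the situation -/
def sit (b : ℕ) (E : List (ℕ × ℕ)) (hE : EdgesOk b E) : Sit (P (2 * b + 5)) (P (2 * b + 4)) E where
  i0 x := ⟨false :: x.1, by rw [List.length_cons, x.2]⟩
  i1 x := ⟨true :: x.1, by rw [List.length_cons, x.2]⟩
  p u := ⟨pl b u, length_pl b u⟩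
  r e := ⟨false :: rl b e, by rw [List.length_cons, length_rl]⟩
  o e := res _ (fo b e)
  Free := coords (2 * b + 5)
  K := coords (2 * b + 5) ∪ {F | ∃ f ∈ known b E, F = res _ f}
  hK := Set.subset_union_left
  ext := by
    intro f g h0 h1
    funext ⟨x, hx⟩
    rcases x with _ | ⟨z, y⟩
    · simp at hx
    have hy : y.length = 2 * b + 4 := by simpa using hx
    cases z
    · exact h0 ⟨y, hy⟩
    · exact h1 ⟨y, hy⟩
  ho0 := by
    intro e he x
    show fo b e (false :: x.1) = true ↔ _
    rw [fo_false x.2, Subtype.ext_iff, Subtype.ext_iff]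
  ho1 := by
    intro e he x
    show fo b e (true :: x.1) = true ↔ _
    rw [fo_true x.2, Ne, Ne, Subtype.ext_iff]
  hp := by
    intro e he e' he' u v hu hv h
    have h1 := hE e he
    have h2 := hE e' he'
    exact pl_inj (b := b) (by omega) (by omega) (Subtype.ext_iff.1 h)
  hE := fun e he => (hE e he).1
  hr := by
    intro e he e' he' h
    have h1 := hE e he
    have h2 := hE e' he'
    have h3 : false :: rl b e = false :: rl b e' := Subtype.ext_iff.1 h
    exact rl_inj (by omega) (by omega) (by omega) (by omega) (List.cons.inj h3).2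
  big := big4 (by omega)
  q := ⟨List.replicate (2 * b + 4) true, by simp⟩
  hq := by
    intro e he h
    have h3 : List.replicate (2 * b + 4) true = false :: rl b e := Subtype.ext_iff.1 h
    rw [List.replicate_succ] at h3
    simp at h3
  g1 := by
    intro F hF e he h
    obtain ⟨f, hf, rfl⟩ := good_mem hF
    have h1 := hE e he
    have k1 : f (false :: pl b e.1) = true := (h ⟨pl b e.1, length_pl b _⟩).2 (Or.inl rfl)
    have k2 : f (false :: pl b e.2) = true := (h ⟨pl b e.2, length_pl b _⟩).2 (Or.inr rfl)
    rcases hf.h0 with h0 | ⟨y, hy, hQ, h0⟩ | ⟨h0, -⟩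
    · rw [h0 _ (length_pl b _)] at k1
      simp at k1
    · rcases (h ⟨y, hy⟩).1 h0 with h2 | h2
      · have h3 : y = pl b e.1 := Subtype.ext_iff.1 h2
        rw [h3] at hQ
        exact pl_not_Q b _ hQ
      · have h3 : y = pl b e.2 := Subtype.ext_iff.1 h2
        rw [h3] at hQ
        exact pl_not_Q b _ hQ
    · have := pl_inj (b := b) (by omega) (by omega) (h0 _ _ (length_pl b _) (length_pl b _) k1 k2)
      omega
  g2 := by
    intro F hF e he h
    obtain ⟨f, hf, rfl⟩ := good_mem hF
    rcases hf.h1 with h0 | ⟨y, hy, hQ, h0⟩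
    · exact (h ⟨false :: rl b e, by rw [List.length_cons, length_rl]⟩).1 (h0 _ (by rw [List.length_cons, length_rl])) rfl
    · have h2 : ¬ ((⟨y, hy⟩ : P (2 * b + 4)) ≠ ⟨false :: rl b e, by rw [List.length_cons, length_rl]⟩) := by
        intro h3
        have h4 := (h _).2 h3
        have h5 : f (true :: y) = true := h4
        rw [h0] at h5
        simp at h5
      rw [not_ne_iff] at h2
      have h3 : y = false :: rl b e := Subtype.ext_iff.1 h2
      rcases hQ with h4 | h4
      · rw [h3] at h4
        simp at h4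
      · rw [h3, rl_last] at h4
        simp at h4
  g3 := by
    intro F hF u h
    obtain ⟨f, hf, rfl⟩ := good_mem hF
    have k1 : f (false :: pl b u) = true := (h ⟨pl b u, length_pl b _⟩).2 rfl
    rcases hf.h0 with h0 | ⟨y, hy, hQ, h0⟩ | ⟨-, h0⟩
    · rw [h0 _ (length_pl b _)] at k1
      simp at k1
    · have h2 := (h ⟨y, hy⟩).1 h0
      have h3 : y = pl b u := Subtype.ext_iff.1 h2
      rw [h3] at hQ
      exact absurd hQ (pl_not_Q b _)
    · exact h0
  g4 := by
    intro F hF e he h
    obtain ⟨f, hf, rfl⟩ := good_mem hF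
    have h' : ∀ y : List Bool, y.length = 2 * b + 4 → f (false :: y) = !fo b e (false :: y) := fun y hy =>
      congrFun h ⟨false :: y, by rw [List.length_cons, hy]⟩
    rcases hf.h2 with h0 | ⟨y, hy, hQ, h0⟩
    · have h1 := h' _ (length_pl b e.1)
      rw [h0 _ (length_pl b _), (fo_false (length_pl b _)).2 (Or.inl rfl)] at h1
      simp at h1
    · have h1 := h' y hy
      rw [h0] at h1
      have h2 : fo b e (false :: y) = true := by
        cases h3 : fo b e (false :: y)
        · rw [h3] at h1
          simp at h1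
        · rfl
      rcases (fo_false hy).1 h2 with h3 | h3
      · rw [h3] at hQ
        exact pl_not_Q b _ hQ
      · rw [h3] at hQ
        exact pl_not_Q b _ hQ

/-! ## The lower bound -/

open Classical in
/-- the number of outputs, without repetitions and without inputs -/
noncomputable def cnt (b : ℕ) (E : List (ℕ × ℕ)) : ℕ :=
  (((outs b E).map (res (2 * b + 5))).toFinset.filter fun F => F ∉ coords (2 * b + 5)).card

theorem lower {b : ℕ} {E : List (ℕ × ℕ)} (hE : EdgesOk b E) {L : List (P (2 * b + 5) → Bool)}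
    (hL : SLP (coords (2 * b + 5)) L)
    (ho : ∀ f ∈ outs b E, res (2 * b + 5) f ∈ L ∨ res (2 * b + 5) f ∈ coords (2 * b + 5)) :
    ∃ C : Finset ℕ, (∀ e ∈ E, e.1 ∈ C ∨ e.2 ∈ C) ∧ cnt b E + C.card ≤ L.length := by
  classical
  let S := sit b E hE
  have h1 : ∀ e ∈ E, S.o e ∈ L := by
    intro e he
    refine (ho (fo b e) ?_).resolve_right fun h => S.g1 _ (Or.inl h) e he (S.ho0 e he)
    rw [outs, List.mem_append]
    exact Or.inr (List.mem_map.2 ⟨e, he, rfl⟩)
  obtain ⟨C, hC1, hC2⟩ := S.cover hL h1
  refine ⟨C, hC1, ?_⟩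
  have h2 : Disjoint (((outs b E).map (res (2 * b + 5))).toFinset.filter fun F => F ∉ coords (2 * b + 5))
      (L.toFinset.filter S.New) := by
    rw [Finset.disjoint_left]
    intro F hF1 hF2
    rw [Finset.mem_filter, List.mem_toFinset, List.mem_map] at hF1
    obtain ⟨⟨f, hf, rfl⟩, -⟩ := hF1
    obtain ⟨h3, h4⟩ := (Finset.mem_filter.1 hF2).2
    rw [outs, List.mem_append, List.mem_map] at hf
    rcases hf with hf | ⟨e, he, rfl⟩
    · exact h3 (Or.inr ⟨f, hf, rfl⟩)
    · exact h4 e he rfl
  have h3 : (((outs b E).map (res (2 * b + 5))).toFinset.filter fun F => F ∉ coords (2 * b + 5)) ∪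
      (L.toFinset.filter S.New) ⊆ L.toFinset := by
    refine Finset.union_subset (fun F hF => ?_) (Finset.filter_subset _ _)
    rw [Finset.mem_filter, List.mem_toFinset, List.mem_map] at hF
    obtain ⟨⟨f, hf, rfl⟩, h4⟩ := hF
    exact List.mem_toFinset.2 ((ho f hf).resolve_right h4)
  have h4 := Finset.card_le_card h3
  rw [Finset.card_union_of_disjoint h2] at h4
  have h5 := List.toFinset_card_le L
  unfold cnt
  omega

end Pool.Agent.Lib.MultiMCSP
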