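import Pool.Agent.Lib.MP_a221bc_multi.SLP

/-!
# The lower bound: additional gates give a vertex cover
-/

namespace Pool.Agent.Lib.MultiMCSP

variable {D X : Type}

/-- the abstract situation: `i0`, `i1` are the two halves of the cube, `p` the points of the
vertices, `r` the points of the edges, `o` the functions of the edges, `K` the known functions -/
structure Sit (D X : Type) (E : List (ℕ × ℕ)) where
  /-- first half -/
  i0 : X → D
  /-- second half -/
  i1 : X → D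
  /-- points of vertices -/
  p : ℕ → X
  /-- points of edges -/
  r : ℕ × ℕ → X
  /-- functions of edges -/
  o : ℕ × ℕ → D → Bool
  /-- free functions -/
  Free : Set (D → Bool)
  /-- known functions -/
  K : Set (D → Bool)
  hK : Free ⊆ K
  ext : ∀ f g : D → Bool, (∀ x, f (i0 x) = g (i0 x)) → (∀ x, f (i1 x) = g (i1 x)) → f = g
  ho0 : ∀ e ∈ E, ∀ x, o e (i0 x) = true ↔ x = p e.1 ∨ x = p e.2
  ho1 : ∀ e ∈ E, ∀ x, o e (i1 x) = true ↔ x ≠ r e
  hp : ∀ e ∈ E, ∀ e' ∈ E, ∀ u v, (u = e.1 ∨ u = e.2) → (v = e'.1 ∨ v = e'.2) → p u = p v → u = v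
  hE : ∀ e ∈ E, e.1 < e.2
  hr : ∀ e ∈ E, ∀ e' ∈ E, r e = r e' → e = e'
  big : ∀ a b c d : X, ∃ x, x ≠ a ∧ x ≠ b ∧ x ≠ c ∧ x ≠ d
  /-- a point of the second half -/
  q : X
  hq : ∀ e ∈ E, q ≠ r e
  /-- known functions are different from the functions of edges, on the first half -/
  g1 : ∀ f ∈ K, ∀ e ∈ E, ¬ ∀ x, f (i0 x) = true ↔ x = p e.1 ∨ x = p e.2
  /-- and on the second half -/
  g2 : ∀ f ∈ K, ∀ e ∈ E, ¬ ∀ x, f (i1 x) = true ↔ x ≠ r e
  /-- known functions with one point in the first half -/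
  g3 : ∀ f ∈ K, ∀ u, (∀ x, f (i0 x) = true ↔ x = p u) → f (i1 q) = false
  /-- negations -/
  g4 : ∀ f ∈ K, ∀ e ∈ E, f ≠ fun x => !o e x

variable {E : List (ℕ × ℕ)} (S : Sit D X E)

/-- how a function can be used for an edge -/
def Sit.Uses (h : D → Bool) (e : ℕ × ℕ) : Prop :=
  (∃ u, (u = e.1 ∨ u = e.2) ∧ ∀ x, h (S.i0 x) = true ↔ x = S.p u) ∨
  (∀ x, h (S.i0 x) = true ↔ x = S.p e.1 ∨ x = S.p e.2) ∨
  ((∀ x, h (S.i1 x) = true ↔ x ≠ S.r e) ∧ h (S.i0 (S.p e.1)) = true ∧ h (S.i0 (S.p e.2)) = true ∧ h ≠ S.o e) ∨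
  h = fun x => !S.o e x

theorem Sit.o_inj {e e' : ℕ × ℕ} (he : e ∈ E) (he' : e' ∈ E)
    (h : ∀ x, (x = S.p e.1 ∨ x = S.p e.2) ↔ (x = S.p e'.1 ∨ x = S.p e'.2)) : e = e' := by
  have h1 := (h (S.p e.1)).1 (Or.inl rfl)
  have h2 := (h (S.p e.2)).1 (Or.inr rfl)
  have l1 := S.hE e he
  have l2 := S.hE e' he'
  have k1 : e.1 = e'.1 ∨ e.1 = e'.2 := by
    rcases h1 with h1 | h1
    · exact Or.inl (S.hp e he e' he' _ _ (Or.inl rfl) (Or.inl rfl) h1)
    · exact Or.inr (S.hp e he e' he' _ _ (Or.inl rfl) (Or.inr rfl) h1)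
  have k2 : e.2 = e'.1 ∨ e.2 = e'.2 := by
    rcases h2 with h2 | h2
    · exact Or.inl (S.hp e he e' he' _ _ (Or.inr rfl) (Or.inl rfl) h2)
    · exact Or.inr (S.hp e he e' he' _ _ (Or.inr rfl) (Or.inr rfl) h2)
  apply Prod.ext <;> omega

/-- every function is used for edges with a common vertex -/
theorem Sit.uses_star (h : D → Bool) : ∃ u, ∀ e ∈ E, S.Uses h e → u = e.1 ∨ u = e.2 := by
  by_cases c1 : ∃ e ∈ E, ∃ u, (u = e.1 ∨ u = e.2) ∧ ∀ x, h (S.i0 x) = true ↔ x = S.p u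
  · obtain ⟨e, he, u, hu, h1⟩ := c1
    refine ⟨u, fun e' he' h2 => ?_⟩
    have hne : S.p e'.1 ≠ S.p e'.2 := fun h3 => by
      have := S.hp e' he' e' he' _ _ (Or.inl rfl) (Or.inr rfl) h3
      have := S.hE e' he'
      omega
    rcases h2 with ⟨v, hv, h2⟩ | h2 | ⟨-, h2, h3, -⟩ | h2
    · have h3 := (h1 (S.p v)).1 ((h2 _).2 rfl)
      have := S.hp e he e' he' u v hu hv h3.symm
      rw [this]
      exact hv
    · have h3 := (h1 _).1 ((h2 (S.p e'.1)).2 (Or.inl rfl))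
      have h4 := (h1 _).1 ((h2 (S.p e'.2)).2 (Or.inr rfl))
      exact absurd (h3.trans h4.symm) hne
    · exact absurd (((h1 _).1 h2).trans ((h1 _).1 h3).symm) hne
    · obtain ⟨x, x1, x2, x3, -⟩ := S.big (S.p u) (S.p e'.1) (S.p e'.2) (S.p e'.2)
      have h3 : ¬ h (S.i0 x) = true := fun h3 => x1 ((h1 x).1 h3)
      have h4 : ¬ S.o e' (S.i0 x) = true := fun h4 => by
        rcases (S.ho0 e' he' x).1 h4 with h5 | h5
        · exact x2 h5
        · exact x3 h5
      have h5 := congrFun h2 (S.i0 x)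
      rw [h5] at h3
      exact absurd (by simpa using h4) h3
  by_cases c2 : ∃ e ∈ E, ∀ x, h (S.i0 x) = true ↔ x = S.p e.1 ∨ x = S.p e.2
  · obtain ⟨e, he, h1⟩ := c2
    refine ⟨e.1, fun e' he' h2 => ?_⟩
    rcases h2 with ⟨v, hv, h2⟩ | h2 | ⟨h4, h2, h3, h5⟩ | h2
    · exact absurd ⟨e', he', v, hv, h2⟩ c1
    · rw [S.o_inj he he' fun x => (h1 x).symm.trans (h2 x)]
      exact Or.inl rfl
    · exfalso
      have l1 := S.hE e he
      have l2 := S.hE e' he'
      have k1 : e'.1 = e.1 ∨ e'.1 = e.2 := by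
        rcases (h1 _).1 h2 with h6 | h6
        · exact Or.inl (S.hp e' he' e he _ _ (Or.inl rfl) (Or.inl rfl) h6)
        · exact Or.inr (S.hp e' he' e he _ _ (Or.inl rfl) (Or.inr rfl) h6)
      have k2 : e'.2 = e.1 ∨ e'.2 = e.2 := by
        rcases (h1 _).1 h3 with h6 | h6
        · exact Or.inl (S.hp e' he' e he _ _ (Or.inr rfl) (Or.inl rfl) h6)
        · exact Or.inr (S.hp e' he' e he _ _ (Or.inr rfl) (Or.inr rfl) h6)
      have k3 : e' = e := by
        apply Prod.ext <;> omega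
      subst k3
      refine h5 (S.ext _ _ (fun x => ?_) fun x => ?_)
      · rw [Bool.eq_iff_iff, h1, S.ho0 e' he']
      · rw [Bool.eq_iff_iff, h4, S.ho1 e' he']
    · exfalso
      obtain ⟨x, x1, x2, x3, x4⟩ := S.big (S.p e.1) (S.p e.2) (S.p e'.1) (S.p e'.2)
      have h3 : ¬ h (S.i0 x) = true := fun h3 => by
        rcases (h1 x).1 h3 with h4 | h4
        · exact x1 h4
        · exact x2 h4
      have h4 : ¬ S.o e' (S.i0 x) = true := fun h4 => by
        rcases (S.ho0 e' he' x).1 h4 with h5 | h5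
        · exact x3 h5
        · exact x4 h5
      have h5 := congrFun h2 (S.i0 x)
      rw [h5] at h3
      exact absurd (by simpa using h4) h3
  by_cases c3 : ∃ e ∈ E, ∀ x, h (S.i1 x) = true ↔ x ≠ S.r e
  · obtain ⟨e, he, h1⟩ := c3
    refine ⟨e.1, fun e' he' h2 => ?_⟩
    rcases h2 with ⟨v, hv, h2⟩ | h2 | ⟨h4, -, -, -⟩ | h2
    · exact absurd ⟨e', he', v, hv, h2⟩ c1
    · exact absurd ⟨e', he', h2⟩ c2
    · have h3 : S.r e = S.r e' := by
        by_contra h5
        exact (h1 (S.r e)).1 ((h4 _).2 h5) rfl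
      rw [S.hr e he e' he' h3]
      exact Or.inl rfl
    · exfalso
      obtain ⟨x, x1, x2, -⟩ := S.big (S.r e) (S.r e') (S.r e') (S.r e')
      have h3 := (h1 x).2 x1
      have h5 := congrFun h2 (S.i1 x)
      rw [h5, (S.ho1 e' he' x).2 x2] at h3
      simp at h3
  · by_cases c4 : ∃ e ∈ E, h = fun x => !S.o e x
    · obtain ⟨e, he, h1⟩ := c4
      refine ⟨e.1, fun e' he' h2 => ?_⟩
      rcases h2 with ⟨v, hv, h2⟩ | h2 | ⟨h4, -, -, -⟩ | h2
      · exact absurd ⟨e', he', v, hv, h2⟩ c1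
      · exact absurd ⟨e', he', h2⟩ c2
      · exact absurd ⟨e', he', h4⟩ c3
      · have h3 : S.r e = S.r e' := by
          by_contra h5
          have h6 := congrFun (h1.symm.trans h2) (S.i1 (S.r e))
          have h7 : ¬ S.o e (S.i1 (S.r e)) = true := fun h7 => (S.ho1 e he _).1 h7 rfl
          have h8 := (S.ho1 e' he' (S.r e)).2 h5
          simp only [h8] at h6
          simp at h7
          simp [h7] at h6
        rw [S.hr e he e' he' h3]
        exact Or.inl rfl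
    · refine ⟨0, fun e' he' h2 => ?_⟩
      rcases h2 with ⟨v, hv, h2⟩ | h2 | ⟨h4, -, -, -⟩ | h2
      · exact absurd ⟨e', he', v, hv, h2⟩ c1
      · exact absurd ⟨e', he', h2⟩ c2
      · exact absurd ⟨e', he', h4⟩ c3
      · exact absurd ⟨e', he', h2⟩ c4

/-- the functions which are neither known nor functions of edges -/
def Sit.New (h : D → Bool) : Prop := h ∉ S.K ∧ ∀ e ∈ E, h ≠ S.o e

theorem Sit.pne {e : ℕ × ℕ} (he : e ∈ E) : S.p e.1 ≠ S.p e.2 := fun h3 => by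
  have := S.hp e he e he _ _ (Or.inl rfl) (Or.inr rfl) h3
  have := S.hE e he
  omega

theorem Sit.or_case {L : List (D → Bool)} {e : ℕ × ℕ} (he : e ∈ E) {a b : D → Bool}
    (ha : a ∈ L ∨ a ∈ S.Free) (hb : b ∈ L ∨ b ∈ S.Free) (ha' : a ≠ S.o e) (hb' : b ≠ S.o e)
    (h : S.o e = fun x => a x || b x) : ∃ h ∈ L, S.New h ∧ S.Uses h e := by
  have mem : ∀ a, (a ∈ L ∨ a ∈ S.Free) → a ∉ S.K → a ∈ L := fun a h h' =>
    h.resolve_right fun h2 => h' (S.hK h2)
  have hor : ∀ x, (a (S.i0 x) = true ∨ b (S.i0 x) = true) ↔ x = S.p e.1 ∨ x = S.p e.2 := by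
    intro x
    rw [← S.ho0 e he x, h]
    simp
  -- a function with the same first half
  have full : ∀ a, (a ∈ L ∨ a ∈ S.Free) → a ≠ S.o e →
      (∀ x, a (S.i0 x) = true ↔ x = S.p e.1 ∨ x = S.p e.2) → ∃ h ∈ L, S.New h ∧ S.Uses h e := by
    intro a ha ha' h1
    have hk : a ∉ S.K := fun hk => S.g1 a hk e he h1
    refine ⟨a, mem a ha hk, ⟨hk, fun e' he' h2 => ?_⟩, Or.inr (Or.inl h1)⟩
    apply ha'
    rw [h2, S.o_inj he he' fun x => (h1 x).symm.trans (by rw [h2]; exact S.ho0 e' he' x)]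
  -- a function with one point in the first half
  have single : ∀ a, (a ∈ L ∨ a ∈ S.Free) → ∀ u, (u = e.1 ∨ u = e.2) →
      (∀ x, a (S.i0 x) = true ↔ x = S.p u) → a (S.i1 S.q) = true → ∃ h ∈ L, S.New h ∧ S.Uses h e := by
    intro a ha u hu h1 h2
    have hk : a ∉ S.K := fun hk => by
      have := S.g3 a hk u h1
      rw [h2] at this
      simp at this
    refine ⟨a, mem a ha hk, ⟨hk, fun e' he' h3 => ?_⟩, Or.inl ⟨u, hu, h1⟩⟩
    have h4 : ∀ x, (x = S.p e'.1 ∨ x = S.p e'.2) ↔ x = S.p u := fun x => by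
      rw [← h1 x, h3, S.ho0 e' he' x]
    exact S.pne he' (((h4 _).1 (Or.inl rfl)).trans ((h4 _).1 (Or.inr rfl)).symm)
  have hq : a (S.i1 S.q) = true ∨ b (S.i1 S.q) = true := by
    have h1 := (S.ho1 e he S.q).2 (S.hq e he)
    rw [h] at h1
    simpa using h1
  have sub : ∀ a : D → Bool, (∀ x, a (S.i0 x) = true → x = S.p e.1 ∨ x = S.p e.2) →
      a (S.i0 (S.p e.1)) = true → a (S.i0 (S.p e.2)) = true →
      ∀ x, a (S.i0 x) = true ↔ x = S.p e.1 ∨ x = S.p e.2 := by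
    intro a h1 h2 h3 x
    refine ⟨h1 x, ?_⟩
    rintro (rfl | rfl)
    · exact h2
    · exact h3
  have suba : ∀ x, a (S.i0 x) = true → x = S.p e.1 ∨ x = S.p e.2 := fun x hx => (hor x).1 (Or.inl hx)
  have subb : ∀ x, b (S.i0 x) = true → x = S.p e.1 ∨ x = S.p e.2 := fun x hx => (hor x).1 (Or.inr hx)
  have one1 : ∀ a : D → Bool, (∀ x, a (S.i0 x) = true → x = S.p e.1 ∨ x = S.p e.2) →
      a (S.i0 (S.p e.1)) = true → ¬ a (S.i0 (S.p e.2)) = true → ∀ x, a (S.i0 x) = true ↔ x = S.p e.1 := by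
    intro a h1 h2 h3 x
    refine ⟨fun h => ?_, fun h => by rw [h]; exact h2⟩
    rcases h1 x h with h4 | h4
    · exact h4
    · rw [h4] at h
      exact absurd h h3
  have one2 : ∀ a : D → Bool, (∀ x, a (S.i0 x) = true → x = S.p e.1 ∨ x = S.p e.2) →
      a (S.i0 (S.p e.2)) = true → ¬ a (S.i0 (S.p e.1)) = true → ∀ x, a (S.i0 x) = true ↔ x = S.p e.2 := by
    intro a h1 h2 h3 x
    refine ⟨fun h => ?_, fun h => by rw [h]; exact h2⟩
    rcases h1 x h with h4 | h4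
    · rw [h4] at h
      exact absurd h h3
    · exact h4
  have d1 := (hor (S.p e.1)).2 (Or.inl rfl)
  have d2 := (hor (S.p e.2)).2 (Or.inr rfl)
  by_cases a1 : a (S.i0 (S.p e.1)) = true <;> by_cases a2 : a (S.i0 (S.p e.2)) = true
  · exact full a ha ha' (sub a suba a1 a2)
  · have b2 := d2.resolve_left a2
    by_cases b1 : b (S.i0 (S.p e.1)) = true
    · exact full b hb hb' (sub b subb b1 b2)
    · rcases hq with hq | hq
      · exact single a ha e.1 (Or.inl rfl) (one1 a suba a1 a2) hq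
      · exact single b hb e.2 (Or.inr rfl) (one2 b subb b2 b1) hq
  · have b1 := d1.resolve_left a1
    by_cases b2 : b (S.i0 (S.p e.2)) = true
    · exact full b hb hb' (sub b subb b1 b2)
    · rcases hq with hq | hq
      · exact single a ha e.2 (Or.inr rfl) (one2 a suba a2 a1) hq
      · exact single b hb e.1 (Or.inl rfl) (one1 b subb b1 b2) hq
  · exact full b hb hb' (sub b subb (d1.resolve_left a1) (d2.resolve_left a2))

theorem Sit.and_case {L : List (D → Bool)} {e : ℕ × ℕ} (he : e ∈ E) {a b : D → Bool}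
    (ha : a ∈ L ∨ a ∈ S.Free) (hb : b ∈ L ∨ b ∈ S.Free) (ha' : a ≠ S.o e) (hb' : b ≠ S.o e)
    (h : S.o e = fun x => a x && b x) : ∃ h ∈ L, S.New h ∧ S.Uses h e := by
  have mem : ∀ a, (a ∈ L ∨ a ∈ S.Free) → a ∉ S.K → a ∈ L := fun a h h' =>
    h.resolve_right fun h2 => h' (S.hK h2)
  have key : ∀ a b : D → Bool, (a ∈ L ∨ a ∈ S.Free) → a ≠ S.o e → (S.o e = fun x => a x && b x) →
      ¬ a (S.i1 (S.r e)) = true → ∃ h ∈ L, S.New h ∧ S.Uses h e := by
    intro a b ha ha' h h0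
    have h1 : ∀ x, a (S.i1 x) = true ↔ x ≠ S.r e := by
      intro x
      constructor
      · rintro h2 rfl
        exact h0 h2
      · intro h2
        have h3 := (S.ho1 e he x).2 h2
        rw [h] at h3
        simp only [Bool.and_eq_true] at h3
        exact h3.1
    have h2 : ∀ x, (x = S.p e.1 ∨ x = S.p e.2) → a (S.i0 x) = true := by
      intro x hx
      have h3 := (S.ho0 e he x).2 hx
      rw [h] at h3
      simp only [Bool.and_eq_true] at h3
      exact h3.1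
    have hk : a ∉ S.K := fun hk => S.g2 a hk e he h1
    refine ⟨a, mem a ha hk, ⟨hk, fun e' he' h3 => ?_⟩,
      Or.inr (Or.inr (Or.inl ⟨h1, h2 _ (Or.inl rfl), h2 _ (Or.inr rfl), ha'⟩))⟩
    apply ha'
    have h4 : S.r e = S.r e' := by
      by_contra h5
      have h6 := (S.ho1 e' he' (S.r e)).2 h5
      rw [← h3] at h6
      exact h0 h6
    rw [h3, S.hr e he e' he' h4]
  have hr : ¬ (a (S.i1 (S.r e)) = true ∧ b (S.i1 (S.r e)) = true) := by
    rintro ⟨h1, h2⟩
    have h3 : S.o e (S.i1 (S.r e)) = true := by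
      rw [h]
      simp [h1, h2]
    exact (S.ho1 e he _).1 h3 rfl
  by_cases h1 : a (S.i1 (S.r e)) = true
  · refine key b a hb hb' ?_ fun h2 => hr ⟨h1, h2⟩
    rw [h]
    funext x
    exact Bool.and_comm _ _
  · exact key a b ha ha' h h1

/-- every edge uses a new function -/
theorem Sit.exists_uses {L : List (D → Bool)} (hL : SLP S.Free L) {e : ℕ × ℕ} (he : e ∈ E)
    (ho : S.o e ∈ L) : ∃ h ∈ L, S.New h ∧ S.Uses h e := by
  obtain ⟨L', h1, h2, a, ha, h3⟩ := hL.first ho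
  have hfree : S.o e ∉ S.Free := fun h => S.g1 _ (S.hK h) e he (S.ho0 e he)
  have hne : ∀ a, (a ∈ L' ∨ a ∈ S.Free) → a ≠ S.o e := by
    rintro a ha rfl
    rcases ha with ha | ha
    · exact h2 ha
    · exact hfree ha
  have hmem : ∀ a, (a ∈ L' ∨ a ∈ S.Free) → a ∈ L ∨ a ∈ S.Free := fun a ha => ha.imp (h1 a) id
  rcases h3 with h3 | ⟨b, hb, h3 | h3⟩
  · have h4 : a = fun x => !S.o e x := by
      rw [h3]
      funext x
      simp
    have hk : a ∉ S.K := fun hk => S.g4 a hk e he h4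
    refine ⟨a, (hmem a ha).resolve_right fun h => hk (S.hK h), ⟨hk, fun e' he' h5 => ?_⟩,
      Or.inr (Or.inr (Or.inr h4))⟩
    obtain ⟨x, x1, x2, x3, x4⟩ := S.big (S.p e.1) (S.p e.2) (S.p e'.1) (S.p e'.2)
    have h6 : ¬ S.o e (S.i0 x) = true := fun h => by
      rcases (S.ho0 e he x).1 h with h | h
      · exact x1 h
      · exact x2 h
    have h7 : ¬ S.o e' (S.i0 x) = true := fun h => by
      rcases (S.ho0 e' he' x).1 h with h | h
      · exact x3 h
      · exact x4 h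
    have h8 := congrFun (h4.symm.trans h5) (S.i0 x)
    simp only [Bool.not_eq_true] at h6 h7
    simp [h6, h7] at h8
  · exact S.and_case he (hmem a ha) (hmem b hb) (hne a ha) (hne b hb) h3
  · exact S.or_case he (hmem a ha) (hmem b hb) (hne a ha) (hne b hb) h3

open Classical in
/-- **The new functions of a straight-line program give a vertex cover.** -/
theorem Sit.cover {L : List (D → Bool)} (hL : SLP S.Free L) (ho : ∀ e ∈ E, S.o e ∈ L) :
    ∃ C : Finset ℕ, (∀ e ∈ E, e.1 ∈ C ∨ e.2 ∈ C) ∧ C.card ≤ (L.toFinset.filter S.New).card := by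
  choose φ hφ using S.uses_star
  refine ⟨(L.toFinset.filter S.New).image φ, fun e he => ?_, Finset.card_image_le⟩
  obtain ⟨h, h1, h2, h3⟩ := S.exists_uses hL he (ho e he)
  have h4 : φ h ∈ (L.toFinset.filter S.New).image φ :=
    Finset.mem_image.2 ⟨h, Finset.mem_filter.2 ⟨List.mem_toFinset.2 h1, h2⟩, rfl⟩
  rcases hφ h e he h3 with h5 | h5
  · rw [h5] at h4
    exact Or.inl h4
  · rw [h5] at h4
    exact Or.inr h4

end Pool.Agent.Lib.MultiMCSP
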