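import Pool.Agent.Lib.MP_a221bc_multi.Short
import Pool.Agent.Lib.MP_a221bc_esop.Member

/-!
# The problem is in NP
-/

set_option linter.unusedSimpArgs false

namespace Pool.Agent.Lib.MultiMCSP

open Turing Pool.Agent.Lib.EsopHard Pool.Agent.Lib.PolyTime

/-! ## Gates as terms -/

/-- first input -/
def gi (t : List (Option Bool)) : ℕ := t.count (some true)

/-- second input -/
def gj (t : List (Option Bool)) : ℕ := t.count none

/-- kind -/
def go (t : List (Option Bool)) : ℕ := t.count (some false)

/-- the gate of a term -/
def toGate (t : List (Option Bool)) : Gate :=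
  if go t = 0 then .not (gi t) else if go t = 1 then .and (gi t) (gj t) else .or (gi t) (gj t)

/-- the term of a gate -/
def encG : Gate → List (Option Bool)
  | .not i => List.replicate i (some true)
  | .and i j => List.replicate i (some true) ++ (List.replicate j none ++ [some false])
  | .or i j => List.replicate i (some true) ++ (List.replicate j none ++ [some false, some false])

theorem toGate_encG (g : Gate) : toGate (encG g) = g := by
  rcases g with i | ⟨i, j⟩ | ⟨i, j⟩ <;>
    simp [toGate, encG, go, gi, gj, List.count_append, List.count_replicate]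

theorem length_encG {m : ℕ} {g : Gate} (h : g.Ok m) : (encG g).length ≤ 2 * m + 2 := by
  rcases g with i | ⟨i, j⟩ | ⟨i, j⟩
  · have : i < m := h
    simp only [encG, List.length_replicate]
    omega
  · have h1 : i < m := h.1
    have h2 : j < m := h.2
    simp only [encG, List.length_append, List.length_replicate, List.length_cons, List.length_nil]
    omega
  · have h1 : i < m := h.1
    have h2 : j < m := h.2
    simp only [encG, List.length_append, List.length_replicate, List.length_cons, List.length_nil]
    omega

/-- value -/
def gv (t : List (Option Bool)) (w : List Bool) : Bool :=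
  if go t = 0 then !(w.getD (gi t) false) else if go t = 1 then w.getD (gi t) false && w.getD (gj t) false
    else w.getD (gi t) false || w.getD (gj t) false

/-- correctness -/
def gok (t : List (Option Bool)) (m : ℕ) : Bool :=
  decide (gi t < m) && (decide (go t = 0) || decide (gj t < m))

theorem gv_eq (t : List (Option Bool)) (w : List Bool) : (toGate t).val w = gv t w := by
  unfold toGate gv
  split_ifs <;> rfl

theorem gok_iff (t : List (Option Bool)) (m : ℕ) : gok t m = true ↔ (toGate t).Ok m := by
  unfold toGate gok
  by_cases h1 : go t = 0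
  · simp [Gate.Ok, h1]
  · by_cases h2 : go t = 1
    · simp [Gate.Ok, h2]
    · simp [Gate.Ok, h1, h2]

/-- evaluation -/
def runT (G : List (List (Option Bool))) (y : List Bool) : List Bool := G.foldl (fun w t => w ++ [gv t w]) y

theorem runT_eq (G : List (List (Option Bool))) (y : List Bool) : runT G y = wires (G.map toGate) y := by
  unfold runT wires
  rw [List.foldl_map]
  congr 1
  funext w t
  rw [gv_eq]

/-- correct circuits -/
def circOk (n : ℕ) (G : List (List (Option Bool))) : Bool :=
  ((List.range G.length).zip G).all fun p => gok p.2 (n + p.1)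

theorem circOk_iff (n : ℕ) (G : List (List (Option Bool))) :
    circOk n G = true ↔ IsCircuit n (G.map toGate) := by
  unfold circOk IsCircuit
  rw [List.all_eq_true]
  constructor
  · intro h k hk
    rw [List.length_map] at hk
    rw [List.getElem_map]
    refine (gok_iff _ _).1 (h (k, G[k]) ?_)
    rw [List.mem_iff_getElem]
    refine ⟨k, by simpa using hk, ?_⟩
    simp
  · intro h p hp
    obtain ⟨k, hk, rfl⟩ := List.mem_iff_getElem.1 hp
    have hk' : k < G.length := by simpa using hk
    rw [List.getElem_zip]
    simp only [List.getElem_range]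
    refine (gok_iff _ _).2 ?_
    have := h k (by rw [List.length_map]; exact hk')
    rwa [List.getElem_map] at this

/-! ## The verifier -/

/-- number of variables -/
def un (x : List Bool) (T : List (List (Option Bool))) : ℕ :=
  min ((T[1]?).getD []).length (Nat.size x.length)

/-- number of outputs -/
def uk (T : List (List (Option Bool))) : ℕ := ((T[2]?).getD []).length

/-- the outputs -/
def uo (T : List (List (Option Bool))) : List ℕ := ((T.drop 3).take (uk T)).map List.length

/-- the gates -/
def ug (T : List (List (Option Bool))) : List (List (Option Bool)) := (T.drop 3).drop (uk T)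

/-- the tables of the outputs -/
def ut (x : List Bool) (T : List (List (Option Bool))) : List (List Bool) :=
  (uo T).map fun i => (points (un x T)).map fun y => (runT (ug T) y).getD i false

/-- the verifier -/
def mver (c : ℕ) (x : List Bool) (T : List (List (Option Bool))) : Bool :=
  decide (natWord (bval (vbits T)) ++ (natWord (un x T) ++ (ut x T).flatten) = x) &&
    (circOk (un x T) (ug T) && ((uo T).all (fun i => decide (i < un x T + (ug T).length)) &&
    (decide (1 ≤ (ut x T).length) && (decide ((ut x T).length ^ c ≤ 2 ^ un x T) &&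
    decide ((ug T).length ≤ bval (vbits T))))))

theorem mver_sound {c : ℕ} {x : List Bool} {T : List (List (Option Bool))} (h : mver c x T = true) :
    x ∈ MultiMCSPLanguage c := by
  simp only [mver, Bool.and_eq_true, decide_eq_true_eq, List.all_eq_true] at h
  obtain ⟨h1, h2, h3, h4, h5, h6⟩ := h
  refine ⟨(un x T, ut x T, bval (vbits T)), ⟨h4, h5, (ug T).map toGate, (circOk_iff _ _).1 h2, ?_, ?_⟩, h1⟩
  · rw [List.length_map]
    exact h6
  · intro t ht
    obtain ⟨i, hi, rfl⟩ := List.mem_map.1 ht
    refine ⟨i, by rw [List.length_map]; exact h3 i hi, ?_⟩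
    refine List.map_congr_left fun y _ => ?_
    rw [runT_eq]

theorem length_encT' (T : List (List (Option Bool))) : (encT T).length = 2 * (T.map fun t => t.length + 1).sum := by
  induction T with
  | nil => rfl
  | cons t T ih =>
    rw [encT_cons, List.length_append, length_eterm, ih, List.map_cons, List.sum_cons]
    ring

theorem sum_le {T : List (List (Option Bool))} {M : ℕ} (h : ∀ t ∈ T, t.length ≤ M) :
    (T.map fun t => t.length + 1).sum ≤ T.length * (M + 1) := by
  have := List.sum_le_card_nsmul (T.map fun t => t.length + 1) (M + 1) (by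
    intro x hx
    obtain ⟨t, ht, rfl⟩ := List.mem_map.1 hx
    exact Nat.add_le_add_right (h t ht) 1)
  simpa using this

/-- bound -/
def bq (N : ℕ) : ℕ := N + (N * N + (1 + N * (N + 1)))

/-- bound for terms -/
def mq (N : ℕ) : ℕ := 2 * (N + bq N) + 2

theorem mver_complete {c : ℕ} {x : List Bool} (h : x ∈ MultiMCSPLanguage c) :
    ∃ w : List Bool, w.length = 2 * ((3 + x.length + bq x.length) * (mq x.length + 1)) ∧
      mver c x (dec w) = true := by
  obtain ⟨⟨n, T0, s⟩, ⟨h1, h2, gs0, k1, k2, k3⟩, rfl⟩ := h
  simp only at h1 h2 k1 k2 k3
  obtain ⟨gs, g1, g2, g3, g4⟩ := exists_small h1 k1 k2 k3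
  set N := (word (n, T0, s)).length with hN
  have hlt : ∀ t ∈ T0, t.length = 2 ^ n := by
    intro t ht
    obtain ⟨i, -, h3⟩ := g4 t ht
    rw [h3, List.length_map, length_points]
  have hfl : T0.flatten.length = T0.length * 2 ^ n := by
    rw [List.length_flatten]
    have : T0.map List.length = T0.map fun _ => 2 ^ n := List.map_congr_left hlt
    rw [this]
    simp
  have hN1 : N = (2 * (Nat.bits s).length + 1) + ((2 * (Nat.bits n).length + 1) + T0.length * 2 ^ n) := by
    rw [hN, word_eq', List.length_append, List.length_append, length_natWord, length_natWord, hfl]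
  have hk : T0.length ≤ N := by
    have := Nat.le_mul_of_pos_right T0.length (Nat.two_pow_pos n)
    omega
  have h2n : 2 ^ n ≤ N := by
    have := Nat.le_mul_of_pos_left (2 ^ n) h1
    omega
  have hn : n < 2 ^ n := Nat.lt_two_pow_self
  have hb : bnd n T0.length ≤ bq N := by
    unfold bnd bq
    have e1 : n * 2 ^ n ≤ N * N := Nat.mul_le_mul (by omega) h2n
    have e2 : T0.length * (2 ^ n + 1) ≤ N * (N + 1) := Nat.mul_le_mul hk (by omega)
    omega
  choose! o ho using g4
  let T : List (List (Option Bool)) := (Nat.bits s).map some :: List.replicate n none ::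
    List.replicate T0.length none :: (T0.map (fun t => List.replicate (o t) none) ++ gs.map encG)
  have hTl : T.length ≤ 3 + N + bq N := by
    simp only [T, List.length_cons, List.length_append, List.length_map]
    omega
  have hTm : ∀ t ∈ T, t.length ≤ mq N := by
    intro t ht
    simp only [T, List.mem_cons, List.mem_append, List.mem_map] at ht
    unfold mq
    rcases ht with rfl | rfl | rfl | ⟨t, ht, rfl⟩ | ⟨g, hg, rfl⟩
    · rw [List.length_map]
      omega
    · rw [List.length_replicate]
      omega
    · rw [List.length_replicate]
      omega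
    · rw [List.length_replicate]
      have := (ho t ht).1
      omega
    · obtain ⟨k, hk, rfl⟩ := List.mem_iff_getElem.1 hg
      have := length_encG (g1 k hk)
      omega
  have hlen := length_encT' T
  have hsum := (sum_le hTm).trans (Nat.mul_le_mul_right _ hTl)
  refine ⟨encT T ++ (List.replicate ((3 + N + bq N) * (mq N + 1) -
    (T.map fun t => t.length + 1).sum) [false, true]).flatten, ?_, ?_⟩
  · rw [List.length_append, hlen]
    have e2 : ∀ m : ℕ, ((List.replicate m [false, true]).flatten).length = 2 * m := by
      intro m
      simp [mul_comm]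
    rw [e2]
    omega
  · rw [dec_encT]
    have f1 : vbits T = Nat.bits s := by
      simp only [vbits, T, List.getElem?_cons_zero, Option.getD_some, List.filterMap_map]
      exact List.filterMap_some
    have f2 : un (word (n, T0, s)) T = n := by
      have : n < Nat.size N := Nat.lt_size.2 (by omega)
      simp only [un, T, List.getElem?_cons_succ, List.getElem?_cons_zero, Option.getD_some,
        List.length_replicate]
      rw [← hN]
      omega
    have f3 : uk T = T0.length := by
      simp only [uk, T, List.getElem?_cons_succ, List.getElem?_cons_zero, Option.getD_some,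
        List.length_replicate]
    have f4 : T.drop 3 = T0.map (fun t => List.replicate (o t) none) ++ gs.map encG := rfl
    have f5 : uo T = T0.map o := by
      rw [uo, f3, f4, List.take_left' (by rw [List.length_map]), List.map_map]
      simp [Function.comp_def]
    have f6 : ug T = gs.map encG := by
      rw [ug, f3, f4, List.drop_left' (by rw [List.length_map])]
    have f7 : (gs.map encG).map toGate = gs := by
      rw [List.map_map]
      have : toGate ∘ encG = id := by
        funext g
        exact toGate_encG g
      rw [this, List.map_id]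
    have f8 : ut (word (n, T0, s)) T = T0 := by
      rw [ut, f2, f5, f6, List.map_map]
      have : T0.map ((fun i => (points n).map fun y => (runT (gs.map encG) y).getD i false) ∘ o) =
          T0.map id := by
        refine List.map_congr_left fun t ht => ?_
        show ((points n).map fun y => (runT (gs.map encG) y).getD (o t) false) = t
        rw [(ho t ht).2]
        refine List.map_congr_left fun y _ => ?_
        rw [runT_eq, f7, ← (ho t ht).2]
      rw [this, List.map_id]
    simp only [mver, f1, f2, f5, f6, f8, bval_bits, Bool.and_eq_true, decide_eq_true_eq, List.all_eq_true]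
    refine ⟨rfl, (circOk_iff _ _).2 (by rw [f7]; exact g1), ?_, h1, h2, ?_⟩
    · intro i hi
      obtain ⟨t, ht, rfl⟩ := List.mem_map.1 hi
      rw [List.length_map]
      exact (ho t ht).1
    · rw [List.length_map]
      exact g2

/-! ## Polynomial time -/

section

variable {α : Type*} [TEnc α]

theorem polyF_gi {t : α → List (Option Bool)} (ht : PolyF t) : PolyF (fun x => gi (t x)) :=
  PolyF.count (PolyF.const (some true)) ht

theorem polyF_gj {t : α → List (Option Bool)} (ht : PolyF t) : PolyF (fun x => gj (t x)) :=
  PolyF.count (PolyF.const none) ht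

theorem polyF_go {t : α → List (Option Bool)} (ht : PolyF t) : PolyF (fun x => go (t x)) :=
  PolyF.count (PolyF.const (some false)) ht

theorem polyF_gv {t : α → List (Option Bool)} {w : α → List Bool} (ht : PolyF t) (hw : PolyF w) :
    PolyF (fun x => gv (t x) (w x)) :=
  PolyF.ite (PolyF.natEq (polyF_go ht) (PolyF.const 0)) (polyF_getD hw (polyF_gi ht)).not
    (PolyF.ite (PolyF.natEq (polyF_go ht) (PolyF.const 1))
      ((polyF_getD hw (polyF_gi ht)).and (polyF_getD hw (polyF_gj ht)))
      ((polyF_getD hw (polyF_gi ht)).or (polyF_getD hw (polyF_gj ht))))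

theorem polyF_gok {t : α → List (Option Bool)} {m : α → ℕ} (ht : PolyF t) (hm : PolyF m) :
    PolyF (fun x => gok (t x) (m x)) :=
  (PolyF.natLt (polyF_gi ht) hm).and ((PolyF.natEq (polyF_go ht) (PolyF.const 0)).or
    (PolyF.natLt (polyF_gj ht) hm))

theorem polyF_runT {G : α → List (List (Option Bool))} {y : α → List Bool} (hG : PolyF G) (hy : PolyF y) :
    PolyF (fun x => runT (G x) (y x)) := by
  refine PolyF.foldl_add (f := fun _ w t => w ++ [gv t w]) hG hy ?_ (fun _ => 2) (PBd.const 2)
    (fun x w t _ => ?_)
  · exact PolyF.snd'.fst.append (polyF_gv PolyF.snd'.snd PolyF.snd'.fst).singleton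
  · rw [sz_append, sz_cons, sz_nil]
    have := sz_bool_le (gv t w)
    omega

theorem polyF_circOk {n : α → ℕ} {G : α → List (List (Option Bool))} (hn : PolyF n) (hG : PolyF G) :
    PolyF (fun x => circOk (n x) (G x)) :=
  PolyF.all (p := fun x (p : ℕ × List (Option Bool)) => gok p.2 (n x + p.1)) (PolyF.zip hG.length.range hG)
    (polyF_gok PolyF.snd'.snd ((hn.comp PolyF.fst').natAdd PolyF.snd'.fst))

theorem polyF_un {x : α → List Bool} {T : α → List (List (Option Bool))} (hx : PolyF x) (hT : PolyF T) :
    PolyF (fun a => un (x a) (T a)) :=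
  PolyF.natMin ((PolyF.getElem? (PolyF.const 1) hT).getD (PolyF.const [])).length (polyF_size hx.length)

theorem pbd_un {x : α → List Bool} {T : α → List (List (Option Bool))} (hx : PolyF x) :
    PBd (fun a => 2 ^ un (x a) (T a)) :=
  (((PBd.const 2).mul hx.length.pbdNat).add (PBd.const 1)).of_le fun _ =>
    (Nat.pow_le_pow_right (by norm_num) (min_le_right _ _)).trans (pow_size_le _)

theorem polyF_uk {T : α → List (List (Option Bool))} (hT : PolyF T) : PolyF (fun a => uk (T a)) :=
  ((PolyF.getElem? (PolyF.const 2) hT).getD (PolyF.const [])).length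

theorem polyF_uo {T : α → List (List (Option Bool))} (hT : PolyF T) : PolyF (fun a => uo (T a)) :=
  PolyF.map (h := fun _ (t : List (Option Bool)) => t.length)
    (PolyF.take (polyF_uk hT) (PolyF.drop (PolyF.const 3) hT)) PolyF.snd'.length

theorem polyF_ug {T : α → List (List (Option Bool))} (hT : PolyF T) : PolyF (fun a => ug (T a)) :=
  PolyF.drop (polyF_uk hT) (PolyF.drop (PolyF.const 3) hT)

theorem polyF_ut {x : α → List Bool} {T : α → List (List (Option Bool))} (hx : PolyF x) (hT : PolyF T) :
    PolyF (fun a => ut (x a) (T a)) := by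
  refine PolyF.map (h := fun a i => (points (un (x a) (T a))).map fun y => (runT (ug (T a)) y).getD i false)
    (polyF_uo hT) ?_
  refine PolyF.map (h := fun (p : α × ℕ) y => (runT (ug (T p.1)) y).getD p.2 false)
    ((polyF_points (polyF_un hx hT) (pbd_un hx)).comp PolyF.fst') ?_
  exact polyF_getD (polyF_runT ((polyF_ug hT).comp PolyF.fst'.fst) PolyF.snd') PolyF.fst'.snd

theorem polyF_mver (c : ℕ) {x : α → List Bool} {T : α → List (List (Option Bool))} (hx : PolyF x)
    (hT : PolyF T) : PolyF (fun a => mver c (x a) (T a)) := by
  have hs : PolyF (α := α) (β := NBin) (fun a => bval (vbits (T a))) := ((polyF_vbits hT).ofBits).ofBin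
  have hn := polyF_un hx hT
  have ht := polyF_ut hx hT
  have hg := polyF_ug hT
  have h1 : PolyF (fun a => decide (natWord (bval (vbits (T a))) ++
      (natWord (un (x a) (T a)) ++ (ut (x a) (T a)).flatten) = x a)) :=
    PolyF.eq ((polyF_natWord' hs).append ((polyF_natWord hn).append ht.flatten)) hx
  have h2 : PolyF (fun a => circOk (un (x a) (T a)) (ug (T a))) := polyF_circOk hn hg
  have h3 : PolyF (fun a => (uo (T a)).all fun i => decide (i < un (x a) (T a) + (ug (T a)).length)) :=
    PolyF.all (p := fun a i => decide (i < un (x a) (T a) + (ug (T a)).length)) (polyF_uo hT)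
      (PolyF.natLt PolyF.snd' ((hn.natAdd hg.length).comp PolyF.fst'))
  have h4 : PolyF (fun a => decide (1 ≤ (ut (x a) (T a)).length)) := PolyF.natLe (PolyF.const 1) ht.length
  have h5 : PolyF (fun a => decide ((ut (x a) (T a)).length ^ c ≤ 2 ^ un (x a) (T a))) :=
    PolyF.natLe (ht.length.natPow c) (polyF_pow hn (pbd_un hx))
  have h6 : PolyF (fun a => decide ((ug (T a)).length ≤ bval (vbits (T a)))) :=
    PolyF.nbLe hg.length.nbOfNat hs
  exact h1.and (h2.and (h3.and (h4.and (h5.and h6))))

end

/-- **Membership in NP.** -/
theorem multi_np (c : ℕ) : InNP (MultiMCSPLanguage c) := by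
  let B : Polynomial ℕ := Polynomial.X + (Polynomial.X * Polynomial.X + (1 + Polynomial.X * (Polynomial.X + 1)))
  refine ⟨2 * ((3 + Polynomial.X + B) * ((2 * (Polynomial.X + B) + 2) + 1)),
    fun p => mver c p.1 (dec p.2), ?_, fun x => ⟨fun h => ?_, ?_⟩⟩
  · have h : PolyF (fun y : List (Option Bool) => mver c (unX y) (dec (unW y))) :=
      polyF_mver c polyF_unX (polyF_dec polyF_unW)
    exact h.tm2_bool fun p => by rw [unX_pair, unW_pair]
  · obtain ⟨w, h1, h2⟩ := mver_complete h
    refine ⟨w, ?_, h2⟩
    rw [h1]
    simp [B, bq, mq]
  · rintro ⟨w, -, h⟩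
    exact mver_sound h

/-- **The minimum circuit size problem for several outputs is NP-complete.** -/
theorem multi_complete (c : ℕ) : NPComplete (MultiMCSPLanguage c) := ⟨multi_np c, multi_hard c⟩

end Pool.Agent.Lib.MultiMCSP
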