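import Pool.Agent.Lib.MP_a221bc_multi.Red
import Pool.Agent.Lib.MP_a221bc_esop.Poly

/-!
# The reduction is computable in polynomial time
-/

set_option linter.unusedSimpArgs false

namespace Pool.Agent.Lib.MultiMCSP

open Turing Pool.Agent.Lib.EsopHard Pool.Agent.Lib.PolyTime Pool.Agent.Lib.CookLevin

/-! ## The instance -/

/-- number of bits -/
def bb (φ : CNF) : ℕ := Nat.size (occ φ).length

/-- the outputs -/
def outL (φ : CNF) : List (List Bool → Bool) := outs (bb φ) (edges φ)

/-- their tables without superfluous variables -/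
def tab0 (φ : CNF) : List (List Bool) := tabs (2 * bb φ + 5) (outL φ)

/-- number of superfluous variables -/
def dd (c : ℕ) (φ : CNF) : ℕ := c * Nat.size (tab0 φ).length

/-- the number of gates -/
def ss (φ : CNF) : ℕ := cntN (2 * bb φ + 5) (tab0 φ) + (occ φ).length - φ.2.length

/-- the instance -/
def inst (c : ℕ) (φ : CNF) : ℕ × List (List Bool) × ℕ :=
  (2 * bb φ + 5 + dd c φ, tabs (2 * bb φ + 5 + dd c φ) (outL φ), ss φ)

theorem edgesOk (φ : CNF) : EdgesOk (bb φ) (edges φ) := by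
  intro e he
  obtain ⟨h1, h2, -⟩ := mem_edges.1 he
  have h3 : (occ φ).length < 2 ^ bb φ := Nat.lt_size_self _
  have h4 : 2 ^ (bb φ + 1) = 2 ^ bb φ * 2 := pow_succ _ _
  exact ⟨h1, by omega⟩

theorem cnt_pos (b : ℕ) (E : List (ℕ × ℕ)) : 1 ≤ cnt b E := by
  classical
  rw [cnt, Nat.one_le_iff_ne_zero, ← Nat.pos_iff_ne_zero, Finset.card_pos]
  refine ⟨res _ (fnot 0), ?_⟩
  rw [Finset.mem_filter, List.mem_toFinset, List.mem_map]
  refine ⟨⟨fnot 0, List.mem_append_left _ (mem_known.2 (Or.inl ⟨0, by omega, rfl⟩)), rfl⟩, ?_⟩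
  rintro ⟨i, hi, h⟩
  have h1 := congrFun h ⟨List.replicate (2 * b + 5) false, by simp⟩
  have h2 : fnot 0 (List.replicate (2 * b + 5) false) = (List.replicate (2 * b + 5) false).getD i false := h1
  rw [fnot, getD_replicate' _ _ _ (by omega), getD_replicate' _ _ _ hi] at h2
  simp at h2

theorem length_tabs (N : ℕ) (l : List (List Bool → Bool)) : (tabs N l).length = l.length := by
  rw [tabs, List.length_map]

theorem inst_iff (c : ℕ) (φ : CNF) : inst c φ ∈ MultiMCSP c ↔ Sat φ := by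
  have h1 : 1 ≤ (outL φ).length := by
    have : fnot 0 ∈ outL φ := List.mem_append_left _ (mem_known.2 (Or.inl ⟨0, by omega, rfl⟩))
    exact List.length_pos_of_mem this
  have h2 : (outL φ).length ^ c ≤ 2 ^ (2 * bb φ + 5 + dd c φ) := by
    have h3 : (outL φ).length ≤ 2 ^ Nat.size (tab0 φ).length := by
      rw [tab0, length_tabs]
      exact (Nat.lt_size_self _).le
    calc (outL φ).length ^ c ≤ (2 ^ Nat.size (tab0 φ).length) ^ c := Nat.pow_le_pow_left h3 c
      _ = 2 ^ (dd c φ) := by rw [← pow_mul, dd, mul_comm]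
      _ ≤ _ := Nat.pow_le_pow_right (by norm_num) (by omega)
  have h3 := cnt_pos (bb φ) (edges φ)
  have h4 : cntN (2 * bb φ + 5) (tab0 φ) = cnt (bb φ) (edges φ) := (cnt_eq _ _).symm
  rw [sat_iff_cover]
  have h5 := circuit_iff (edgesOk φ) (dd c φ) (ss φ)
  constructor
  · rintro ⟨-, -, gs, k1, k2, k3⟩
    obtain ⟨C, hC, hC'⟩ := h5.1 ⟨gs, k1, k2, k3⟩
    refine ⟨C, hC, ?_⟩
    rw [ss, h4] at hC'
    omega
  · rintro ⟨C, hC, hC'⟩
    obtain ⟨gs, k1, k2, k3⟩ := h5.2 ⟨C, hC, by rw [ss, h4]; omega⟩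
    refine ⟨?_, ?_, gs, k1, k2, k3⟩
    · show 1 ≤ (tabs _ (outL φ)).length
      rw [length_tabs]
      exact h1
    · show (tabs _ (outL φ)).length ^ c ≤ _
      rw [length_tabs]
      exact h2

/-! ## Words -/

theorem flatten_inj {k : ℕ} (hk : 0 < k) : ∀ T T' : List (List Bool), (∀ t ∈ T, t.length = k) →
    (∀ t ∈ T', t.length = k) → T.flatten = T'.flatten → T = T'
  | [], [], _, _, _ => rfl
  | [], t :: T', _, h', h => by
    have h1 := congrArg List.length h
    rw [List.flatten_cons, List.length_append, h' t (List.mem_cons_self ..)] at h1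
    simp at h1
    omega
  | t :: T, [], h', _, h => by
    have h1 := congrArg List.length h
    rw [List.flatten_cons, List.length_append, h' t (List.mem_cons_self ..)] at h1
    simp at h1
    omega
  | t :: T, t' :: T', h1, h2, h => by
    rw [List.flatten_cons, List.flatten_cons] at h
    obtain ⟨h3, h4⟩ := List.append_inj h (by rw [h1 t (List.mem_cons_self ..), h2 t' (List.mem_cons_self ..)])
    rw [h3, flatten_inj hk T T' (fun t ht => h1 t (List.mem_cons_of_mem _ ht))
      (fun t ht => h2 t (List.mem_cons_of_mem _ ht)) h4]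

theorem natWord_append_inj {s s' : ℕ} {l l' : List Bool} (h : natWord s ++ l = natWord s' ++ l') :
    s = s' ∧ l = l' := by
  rw [natWord, natWord, List.append_assoc, List.append_assoc] at h
  obtain ⟨h1, h2⟩ := prefix_inj _ _ l l' h
  exact ⟨bits_inj _ _ h1, h2⟩

theorem word_inj {p p' : ℕ × List (List Bool) × ℕ} (hp : ∀ t ∈ p.2.1, t.length = 2 ^ p.1)
    (hp' : ∀ t ∈ p'.2.1, t.length = 2 ^ p'.1) (h : word p = word p') : p = p' := by
  obtain ⟨n, T, s⟩ := p
  obtain ⟨n', T', s'⟩ := p'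
  obtain ⟨h1, h2⟩ := natWord_append_inj h
  obtain ⟨h3, h4⟩ := natWord_append_inj h2
  simp only at h1 h3 h4 hp hp'
  subst h1 h3
  rw [flatten_inj (Nat.two_pow_pos n) T T' hp hp' h4]

theorem mcsp_length {c : ℕ} {p : ℕ × List (List Bool) × ℕ} (hp : p ∈ MultiMCSP c) :
    ∀ t ∈ p.2.1, t.length = 2 ^ p.1 := by
  intro t ht
  obtain ⟨-, -, gs, -, -, h⟩ := hp
  obtain ⟨i, -, h1⟩ := h t ht
  rw [h1, List.length_map, length_points]

theorem inst_length (c : ℕ) (φ : CNF) : ∀ t ∈ (inst c φ).2.1, t.length = 2 ^ (inst c φ).1 := by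
  intro t ht
  obtain ⟨f, -, rfl⟩ := List.mem_map.1 ht
  rw [List.length_map, length_points]
  rfl

theorem word_iff (c : ℕ) (φ : CNF) : word (inst c φ) ∈ MultiMCSPLanguage c ↔ Sat φ := by
  rw [← inst_iff c φ]
  constructor
  · rintro ⟨p, hp, h⟩
    rwa [← word_inj (mcsp_length hp) (inst_length c φ) h]
  · intro h
    exact ⟨_, h, rfl⟩

/-! ## Polynomial time -/

/-- prefixes -/
def sig (n : ℕ) : List (List Bool) := (List.range n).flatMap fun k => points (k + 1)

/-- the tables, explicitly -/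
def tabsX (pts : List (List Bool)) (n : ℕ) (S1 S2 : List (List Bool)) (b : ℕ) (E : List (ℕ × ℕ)) :
    List (List Bool) :=
  ((List.range n).map fun i => pts.map (fnot i)) ++
  ((S1.map fun σ => pts.map (fcube σ)) ++
  ((S2.map fun σ => pts.map (fD σ)) ++
  ((E.flatMap fun e => [pts.map (fg b e.1 e), pts.map (fg b e.2 e)]) ++
  E.map fun e => pts.map (fo b e))))

theorem tabs_eq (N b : ℕ) (E : List (ℕ × ℕ)) : tabs N (outs b E) =
    tabsX (points N) (2 * b + 5) (sig (2 * b + 5)) (sig (2 * b + 3)) b E := by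
  simp only [tabs, outs, known, tabsX, sig, List.map_append, List.map_flatMap, List.map_map,
    List.append_assoc, List.map_cons, List.map_nil, Function.comp_def]

variable {α : Type*} [TEnc α]

theorem polyF_getD {l : α → List Bool} {i : α → ℕ} (hl : PolyF l) (hi : PolyF i) :
    PolyF (fun x => (l x).getD (i x) false) :=
  ((PolyF.getElem? hi hl).getD (PolyF.const false)).congr fun _ => (List.getD_eq_getElem?_getD).symm

theorem polyF_fnot {i : α → ℕ} {y : α → List Bool} (hi : PolyF i) (hy : PolyF y) :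
    PolyF (fun x => fnot (i x) (y x)) := (polyF_getD hy hi).not

theorem polyF_fcube {σ y : α → List Bool} (hσ : PolyF σ) (hy : PolyF y) :
    PolyF (fun x => fcube (σ x) (y x)) :=
  PolyF.eq (PolyF.take hσ.length hy) hσ

theorem polyF_fD {σ y : α → List Bool} (hσ : PolyF σ) (hy : PolyF y) :
    PolyF (fun x => fD (σ x) (y x)) :=
  (polyF_fcube (PolyF.const [true, false]) hy).and
    (polyF_fcube ((PolyF.const true).cons ((PolyF.const false).cons hσ)) hy).not

theorem polyF_pl {b u : α → ℕ} (hb : PolyF b) (hu : PolyF u) : PolyF (fun x => pl (b x) (u x)) :=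
  (polyF_gray hb hu).append (polyF_replicate (hb.natAdd (PolyF.const 3)) (PolyF.const false))

theorem polyF_rl {b : α → ℕ} {e : α → ℕ × ℕ} (hb : PolyF b) (he : PolyF e) :
    PolyF (fun x => rl (b x) (e x)) :=
  (polyF_gray hb he.fst).append ((polyF_gray hb he.snd).append (PolyF.const [false]))

theorem polyF_fg {b u : α → ℕ} {e : α → ℕ × ℕ} {y : α → List Bool} (hb : PolyF b) (hu : PolyF u)
    (he : PolyF e) (hy : PolyF y) : PolyF (fun x => fg (b x) (u x) (e x) (y x)) :=
  (polyF_fcube ((PolyF.const false).cons (polyF_pl hb hu)) hy).or (polyF_fD (polyF_rl hb he) hy)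

theorem polyF_fh {b u : α → ℕ} {y : α → List Bool} (hb : PolyF b) (hu : PolyF u)
    (hy : PolyF y) : PolyF (fun x => fh (b x) (u x) (y x)) :=
  (polyF_fcube ((PolyF.const false).cons (polyF_pl hb hu)) hy).or
    (polyF_fcube (PolyF.const [true, true]) hy)

theorem polyF_fo {b : α → ℕ} {e : α → ℕ × ℕ} {y : α → List Bool} (hb : PolyF b)
    (he : PolyF e) (hy : PolyF y) : PolyF (fun x => fo (b x) (e x) (y x)) :=
  (polyF_fh hb he.fst hy).or (polyF_fg hb he.snd he hy)

theorem polyF_tabsX {pts S1 S2 : α → List (List Bool)} {n b : α → ℕ} {E : α → List (ℕ × ℕ)}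
    (hpts : PolyF pts) (hn : PolyF n) (hS1 : PolyF S1) (hS2 : PolyF S2) (hb : PolyF b) (hE : PolyF E) :
    PolyF (fun x => tabsX (pts x) (n x) (S1 x) (S2 x) (b x) (E x)) := by
  have p1 : PolyF (fun x => (List.range (n x)).map fun i => (pts x).map (fnot i)) := by
    refine PolyF.map (h := fun x i => (pts x).map (fnot i)) hn.range ?_
    exact PolyF.map (h := fun (p : α × ℕ) y => fnot p.2 y) (hpts.comp PolyF.fst')
      (polyF_fnot PolyF.fst'.snd PolyF.snd')
  have p2 : PolyF (fun x => (S1 x).map fun σ => (pts x).map (fcube σ)) := by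
    refine PolyF.map (h := fun x σ => (pts x).map (fcube σ)) hS1 ?_
    exact PolyF.map (h := fun (p : α × List Bool) y => fcube p.2 y) (hpts.comp PolyF.fst')
      (polyF_fcube PolyF.fst'.snd PolyF.snd')
  have p3 : PolyF (fun x => (S2 x).map fun σ => (pts x).map (fD σ)) := by
    refine PolyF.map (h := fun x σ => (pts x).map (fD σ)) hS2 ?_
    exact PolyF.map (h := fun (p : α × List Bool) y => fD p.2 y) (hpts.comp PolyF.fst')
      (polyF_fD PolyF.fst'.snd PolyF.snd')
  have p4 : PolyF (fun x => (E x).flatMap fun e => [(pts x).map (fg (b x) e.1 e), (pts x).map (fg (b x) e.2 e)]) := by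
    refine PolyF.flatMap (h := fun x (e : ℕ × ℕ) => [(pts x).map (fg (b x) e.1 e), (pts x).map (fg (b x) e.2 e)]) hE ?_
    refine PolyF.cons ?_ (PolyF.singleton ?_)
    · exact PolyF.map (h := fun (p : α × (ℕ × ℕ)) y => fg (b p.1) p.2.1 p.2 y) (hpts.comp PolyF.fst')
        (polyF_fg (hb.comp PolyF.fst'.fst) PolyF.fst'.snd.fst PolyF.fst'.snd PolyF.snd')
    · exact PolyF.map (h := fun (p : α × (ℕ × ℕ)) y => fg (b p.1) p.2.2 p.2 y) (hpts.comp PolyF.fst')
        (polyF_fg (hb.comp PolyF.fst'.fst) PolyF.fst'.snd.snd PolyF.fst'.snd PolyF.snd')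
  have p5 : PolyF (fun x => (E x).map fun e => (pts x).map (fo (b x) e)) := by
    refine PolyF.map (h := fun x e => (pts x).map (fo (b x) e)) hE ?_
    exact PolyF.map (h := fun (p : α × (ℕ × ℕ)) y => fo (b p.1) p.2 y) (hpts.comp PolyF.fst')
      (polyF_fo (hb.comp PolyF.fst'.fst) PolyF.fst'.snd PolyF.snd')
  exact p1.append (p2.append (p3.append (p4.append p5)))

theorem polyF_sig {n : α → ℕ} (hn : PolyF n) (hb : PBd fun x => 2 ^ n x) : PolyF (fun x => sig (n x)) := by
  have h1 : PolyF (fun x => (List.range (n x)).flatMap fun k => points (min (k + 1) (n x))) := by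
    refine PolyF.flatMap (h := fun x k => points (min (k + 1) (n x))) hn.range ?_
    have hn' : PolyF (fun p : α × ℕ => n p.1) := hn.comp PolyF.fst'
    refine polyF_points (PolyF.natMin PolyF.snd'.succ hn') ?_
    have h2 : PBd (fun p : α × ℕ => 2 ^ n p.1) := hb.comp PolyF.fst'
    exact h2.of_le fun p => Nat.pow_le_pow_right (by norm_num) (min_le_right _ _)
  refine h1.congr fun x => ?_
  unfold sig
  rw [List.flatMap_def, List.flatMap_def]
  congr 1
  refine List.map_congr_left fun k hk => ?_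
  rw [min_eq_left]
  exact List.mem_range.1 hk

theorem polyF_occ {φ : α → CNF} (hφ : PolyF φ) : PolyF (fun x => occ (φ x)) := by
  refine PolyF.flatMap (h := fun x C => (cl (φ x) C).map fun l => (C, l)) hφ.snd.length.range ?_
  exact PolyF.map (h := fun (p : α × ℕ) l => (p.2, l)) (polyF_cl (hφ.comp PolyF.fst') PolyF.snd')
    (PolyF.fst'.snd.pair PolyF.snd')

theorem polyF_conf {p q : α → ℕ × ℕ × Bool} (hp : PolyF p) (hq : PolyF q) :
    PolyF (fun x => conf (p x) (q x)) :=
  (PolyF.natEq hp.fst hq.fst).or ((PolyF.natEq hp.snd.fst hq.snd.fst).and (hp.snd.snd.xor hq.snd.snd))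

theorem polyF_oc {φ : α → CNF} {u : α → ℕ} (hφ : PolyF φ) (hu : PolyF u) :
    PolyF (fun x => oc (φ x) (u x)) :=
  (PolyF.getElem? hu (polyF_occ hφ)).getD (PolyF.const (0, 0, false))

theorem polyF_edges {φ : α → CNF} (hφ : PolyF φ) : PolyF (fun x => edges (φ x)) := by
  refine PolyF.flatMap (h := fun x v => (List.range v).filterMap fun u =>
    if conf (oc (φ x) u) (oc (φ x) v) = true then some (u, v) else none) (polyF_occ hφ).length.range ?_
  refine PolyF.filterMap (h := fun (p : α × ℕ) u =>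
    if conf (oc (φ p.1) u) (oc (φ p.1) p.2) = true then some (u, p.2) else none) PolyF.snd'.range ?_
  have h0 : PolyF (fun p : (α × ℕ) × ℕ => φ p.1.1) := hφ.comp PolyF.fst'.fst
  exact PolyF.iteBool (polyF_conf (polyF_oc h0 PolyF.snd') (polyF_oc h0 PolyF.fst'.snd))
    (PolyF.snd'.pair PolyF.fst'.snd).some (PolyF.const none)

theorem polyF_bb {φ : α → CNF} (hφ : PolyF φ) : PolyF (fun x => bb (φ x)) :=
  polyF_size (polyF_occ hφ).length

theorem pbd_bb {φ : α → CNF} (hφ : PolyF φ) : PBd (fun x => 2 ^ bb (φ x)) :=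
  (((PBd.const 2).mul (polyF_occ hφ).length.pbdNat).add (PBd.const 1)).of_le fun _ => pow_size_le _

theorem polyF_n {φ : α → CNF} (hφ : PolyF φ) (k : ℕ) : PolyF (fun x => 2 * bb (φ x) + k) :=
  ((PolyF.const 2).natMul (polyF_bb hφ)).natAdd (PolyF.const k)

theorem pbd_n {φ : α → CNF} (hφ : PolyF φ) (k : ℕ) : PBd (fun x => 2 ^ (2 * bb (φ x) + k)) :=
  (((pbd_bb hφ).pow 2).mul (PBd.const (2 ^ k))).of_le fun x => by
    rw [pow_add, mul_comm 2, pow_mul]

theorem polyF_tabs {φ : α → CNF} {N : α → ℕ} (hφ : PolyF φ) (hN : PolyF N) (hb : PBd fun x => 2 ^ N x) :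
    PolyF (fun x => tabs (N x) (outL (φ x))) := by
  have h := polyF_tabsX (polyF_points hN hb) (polyF_n hφ 5) (polyF_sig (polyF_n hφ 5) (pbd_n hφ 5))
    (polyF_sig (polyF_n hφ 3) (pbd_n hφ 3)) (polyF_bb hφ) (polyF_edges hφ)
  exact h.congr fun x => (tabs_eq _ _ _).symm

theorem polyF_tab0 {φ : α → CNF} (hφ : PolyF φ) : PolyF (fun x => tab0 (φ x)) :=
  polyF_tabs hφ (polyF_n hφ 5) (pbd_n hφ 5)

theorem polyF_N {φ : α → CNF} (c : ℕ) (hφ : PolyF φ) : PolyF (fun x => 2 * bb (φ x) + 5 + dd c (φ x)) :=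
  (polyF_n hφ 5).natAdd ((PolyF.const c).natMul (polyF_size (polyF_tab0 hφ).length))

theorem pbd_N {φ : α → CNF} (c : ℕ) (hφ : PolyF φ) : PBd (fun x => 2 ^ (2 * bb (φ x) + 5 + dd c (φ x))) := by
  have h1 : PBd (fun x => 2 ^ Nat.size (tab0 (φ x)).length) :=
    (((PBd.const 2).mul (polyF_tab0 hφ).length.pbdNat).add (PBd.const 1)).of_le fun _ => pow_size_le _
  refine ((pbd_n hφ 5).mul (h1.pow c)).of_le fun x => ?_
  rw [pow_add _ (2 * bb (φ x) + 5), dd, mul_comm c, pow_mul]

theorem polyF_coordTabs {n : α → ℕ} (hn : PolyF n) (hb : PBd fun x => 2 ^ n x) :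
    PolyF (fun x => coordTabs (n x)) := by
  refine PolyF.map (h := fun x i => (points (n x)).map fun y => y.getD i false) hn.range ?_
  exact PolyF.map (h := fun (p : α × ℕ) y => y.getD p.2 false) ((polyF_points hn hb).comp PolyF.fst')
    (polyF_getD PolyF.snd' PolyF.fst'.snd)

theorem polyF_cntN {n : α → ℕ} {T : α → List (List Bool)} (hn : PolyF n) (hb : PBd fun x => 2 ^ n x)
    (hT : PolyF T) : PolyF (fun x => cntN (n x) (T x)) := by
  have h := (PolyF.filter (p := fun x t => !(coordTabs (n x)).contains t) (PolyF.dedup hT)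
    (PolyF.contains ((polyF_coordTabs hn hb).comp PolyF.fst') PolyF.snd').not).length
  exact h

theorem polyF_ss {φ : α → CNF} (hφ : PolyF φ) : PolyF (fun x => ss (φ x)) :=
  ((polyF_cntN (polyF_n hφ 5) (pbd_n hφ 5) (polyF_tab0 hφ)).natAdd (polyF_occ hφ).length).natSub
    hφ.snd.length

theorem word_eq' (n : ℕ) (T : List (List Bool)) (s : ℕ) :
    word (n, T, s) = natWord s ++ (natWord n ++ T.flatten) := rfl

theorem polyF_inst {φ : α → CNF} (c : ℕ) (hφ : PolyF φ) : PolyF (fun x => word (inst c (φ x))) := by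
  have h1 : PolyF (fun x => natWord (ss (φ x)) ++ (natWord (2 * bb (φ x) + 5 + dd c (φ x)) ++
      (tabs (2 * bb (φ x) + 5 + dd c (φ x)) (outL (φ x))).flatten)) :=
    (polyF_natWord (polyF_ss hφ)).append ((polyF_natWord (polyF_N c hφ)).append
      (polyF_tabs hφ (polyF_N c hφ) (pbd_N c hφ)).flatten)
  exact h1.congr fun x => (word_eq' _ _ _).symm

/-- **Hardness.** -/
theorem multi_hard (c : ℕ) (L' : Set (List Bool)) (hL : InNP L') :
    KarpReducible L' (MultiMCSPLanguage c) := by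
  obtain ⟨p, V, hV, hx⟩ := hL
  have hS : SharpP fun x => Nat.card {w : List Bool // w.length = p.eval x.length ∧
      V (x, w) = true} := ⟨p, V, hV, fun _ => rfl⟩
  obtain ⟨g, hg, hwf, hc⟩ := cook_levin hS
  refine ⟨fun x => word (inst c (g x)), ?_, fun x => ?_⟩
  · exact (polyF_inst c hg).tm2 fun _ => rfl
  · rw [word_iff c (g x), ← count_pos (g x) (hwf x), ← hc x, hx]
    have : Finite {w : List Bool // w.length = p.eval x.length ∧ V (x, w) = true} :=
      Set.Finite.to_subtype ((List.finite_length_eq Bool (p.eval x.length)).subset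
        fun w hw => hw.1)
    rw [Finite.card_pos_iff]
    exact nonempty_subtype.symm

end Pool.Agent.Lib.MultiMCSP
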