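import Pool.Agent.Lib.MP_a221bc_multi.Upper

/-!
# The reduction
-/

set_option linter.unusedSimpArgs false

namespace Pool.Agent.Lib.MultiMCSP

open Pool.Agent.Lib.EsopHard Pool.Agent.Lib.CookLevin

/-! ## Superfluous variables -/

theorem fcube_ext {σ x : List Bool} (r : List Bool) (h : σ.length ≤ x.length) :
    fcube σ (x ++ r) = fcube σ x := by
  unfold fcube
  rw [List.take_append_of_le_length h]

theorem outs_ext {b : ℕ} {E : List (ℕ × ℕ)} {f : List Bool → Bool} (hf : f ∈ outs b E) {x : List Bool}
    (hx : x.length = 2 * b + 5) (r : List Bool) : f (x ++ r) = f x := by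
  have hc : ∀ σ : List Bool, σ.length ≤ 2 * b + 5 → fcube σ (x ++ r) = fcube σ x := fun σ hσ =>
    fcube_ext r (by omega)
  have hD : ∀ σ : List Bool, σ.length ≤ 2 * b + 3 → fD σ (x ++ r) = fD σ x := fun σ hσ => by
    rw [fD, fD, hc _ (by simp), hc _ (by simp; omega)]
  have hg : ∀ u e, fg b u e (x ++ r) = fg b u e x := fun u e => by
    rw [fg, fg, hc _ (by rw [List.length_cons, length_pl]), hD _ (by rw [length_rl])]
  have hh : ∀ u, fh b u (x ++ r) = fh b u x := fun u => by
    rw [fh, fh, hc _ (by rw [List.length_cons, length_pl]), hc _ (by simp)]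
  rcases List.mem_append.1 hf with hf | hf
  · rcases mem_known.1 hf with ⟨i, hi, rfl⟩ | ⟨σ, h1, h2, rfl⟩ | ⟨σ, h1, h2, rfl⟩ | ⟨e, he, rfl | rfl⟩
    · rw [fnot, fnot, getD_append_left' (by omega)]
    · exact hc σ h2
    · exact hD σ h2
    · exact hg _ _
    · exact hg _ _
  · obtain ⟨e, he, rfl⟩ := List.mem_map.1 hf
    rw [fo, fo, hh, hg]

/-- truth tables -/
def tabs (N : ℕ) (l : List (List Bool → Bool)) : List (List Bool) := l.map fun f => (points N).map f

theorem table_eq {N : ℕ} {f g : List Bool → Bool} :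
    (points N).map f = (points N).map g ↔ res N f = res N g := by
  rw [List.map_inj_left]
  constructor
  · intro h
    funext x
    exact h x.1 (mem_points.2 x.2)
  · intro h x hx
    exact congrFun h ⟨x, mem_points.1 hx⟩

/-- **Circuits with few gates and vertex covers.** -/
theorem circuit_iff {b : ℕ} {E : List (ℕ × ℕ)} (hE : EdgesOk b E) (d s : ℕ) :
    (∃ gs : List Gate, IsCircuit (2 * b + 5 + d) gs ∧ gs.length ≤ s ∧
      Computes (2 * b + 5 + d) gs (tabs (2 * b + 5 + d) (outs b E))) ↔
    ∃ C : Finset ℕ, (∀ e ∈ E, e.1 ∈ C ∨ e.2 ∈ C) ∧ cnt b E + C.card ≤ s := by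
  constructor
  · rintro ⟨gs, h1, h2, h3⟩
    obtain ⟨L, h4, h5, h6⟩ := slp_of_circuit h1
    let ρ : P (2 * b + 5) → P (2 * b + 5 + d) := fun x =>
      ⟨x.1 ++ List.replicate d (x.1.getD 0 false), by simp [x.2]⟩
    have h7 := h4.comap (Free' := coords (2 * b + 5)) ρ (by
      rintro _ ⟨i, hi, rfl⟩
      by_cases h8 : i < 2 * b + 5
      · refine ⟨i, h8, ?_⟩
        funext x
        show (x.1 ++ List.replicate d (x.1.getD 0 false)).getD i false = _
        exact getD_append_left' (by rw [x.2]; exact h8)
      · refine ⟨0, by omega, ?_⟩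
        funext x
        show (x.1 ++ List.replicate d (x.1.getD 0 false)).getD i false = _
        rw [List.getD_eq_getElem?_getD, List.getElem?_append_right (by rw [x.2]; omega),
          List.getElem?_replicate, if_pos (by rw [x.2]; omega)]
        rfl)
    have h8 : ∀ f ∈ outs b E, res (2 * b + 5) f ∈ L.map (fun a x => a (ρ x)) ∨
        res (2 * b + 5) f ∈ coords (2 * b + 5) := by
      intro f hf
      obtain ⟨i, hi, h9⟩ := h3 _ (List.mem_map.2 ⟨f, hf, rfl⟩)
      have h10 := table_eq.1 h9
      have h11 : res (2 * b + 5) f = fun x => res (2 * b + 5 + d) f (ρ x) := by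
        funext x
        exact (outs_ext hf x.2 _).symm
      rw [h11, h10]
      rcases h6 i hi with h12 | ⟨j, hj, h12⟩
      · exact Or.inl (List.mem_map.2 ⟨_, h12, rfl⟩)
      · right
        have h13 : res (2 * b + 5 + d) (fun x => (wires gs x).getD i false) = fun x => x.1.getD j false := h12
        rw [h13]
        by_cases h8 : j < 2 * b + 5
        · refine ⟨j, h8, ?_⟩
          funext x
          show (x.1 ++ List.replicate d (x.1.getD 0 false)).getD j false = _
          exact getD_append_left' (by rw [x.2]; exact h8)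
        · refine ⟨0, by omega, ?_⟩
          funext x
          show (x.1 ++ List.replicate d (x.1.getD 0 false)).getD j false = _
          rw [List.getD_eq_getElem?_getD, List.getElem?_append_right (by rw [x.2]; omega),
            List.getElem?_replicate, if_pos (by rw [x.2]; omega)]
          rfl
    obtain ⟨C, hC, hC'⟩ := lower hE h7 h8
    refine ⟨C, hC, ?_⟩
    rw [List.length_map] at hC'
    omega
  · rintro ⟨C, hC, hs⟩
    obtain ⟨L, h1, h2, h3⟩ := upper (b := b) hC
    let π : P (2 * b + 5 + d) → P (2 * b + 5) := fun x => ⟨x.1.take (2 * b + 5), by simp [x.2]⟩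
    have hπ : ∀ i < 2 * b + 5, (fun x : P (2 * b + 5 + d) => (π x).1.getD i false) =
        fun x => x.1.getD i false := by
      intro i hi
      funext x
      show (x.1.take (2 * b + 5)).getD i false = _
      rw [List.getD_eq_getElem?_getD, List.getD_eq_getElem?_getD, List.getElem?_take_of_lt hi]
    have h4 := h1.comap (Free' := coords (2 * b + 5 + d)) π (by
      rintro _ ⟨i, hi, rfl⟩
      exact ⟨i, by omega, hπ i hi⟩)
    obtain ⟨gs, h5, h6, h7⟩ := circuit_of_slp h4
    refine ⟨gs, h5, by rw [h6, List.length_map]; omega, fun t ht => ?_⟩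
    obtain ⟨f, hf, rfl⟩ := List.mem_map.1 ht
    have h8 : res (2 * b + 5 + d) f = fun x => res (2 * b + 5) f (π x) := by
      funext x
      have := outs_ext hf (x := x.1.take (2 * b + 5)) (by simp [x.2]) (x.1.drop (2 * b + 5))
      rw [List.take_append_drop] at this
      exact this
    have h9 : res (2 * b + 5 + d) f ∈ L.map (fun a x => a (π x)) ∨
        res (2 * b + 5 + d) f ∈ coords (2 * b + 5 + d) := by
      rw [h8]
      rcases h3 f hf with h | ⟨i, hi, h⟩
      · exact Or.inl (List.mem_map.2 ⟨_, h, rfl⟩)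
      · rw [h]
        exact Or.inr ⟨i, by omega, hπ i hi⟩
    obtain ⟨i, hi, h10⟩ := h7 _ h9
    exact ⟨i, hi, table_eq.2 h10⟩

/-! ## The number of outputs -/

/-- tables of the coordinates -/
def coordTabs (n : ℕ) : List (List Bool) :=
  (List.range n).map fun i => (points n).map fun x => x.getD i false

/-- number of different tables which are not tables of coordinates -/
def cntN (n : ℕ) (T : List (List Bool)) : ℕ :=
  (T.dedup.filter fun t => !(coordTabs n).contains t).length

theorem cnt_eq (b : ℕ) (E : List (ℕ × ℕ)) : cnt b E = cntN (2 * b + 5) (tabs (2 * b + 5) (outs b E)) := by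
  classical
  let g : (P (2 * b + 5) → Bool) → List Bool := fun F =>
    (points (2 * b + 5)).map fun x => if h : x.length = 2 * b + 5 then F ⟨x, h⟩ else false
  have hg : ∀ f, g (res _ f) = (points (2 * b + 5)).map f := by
    intro f
    refine List.map_congr_left fun x hx => ?_
    exact dif_pos (mem_points.1 hx)
  have hinj : Function.Injective g := by
    intro F F' h
    funext x
    have := List.map_inj_left.1 h x.1 (mem_points.2 x.2)
    rwa [dif_pos x.2, dif_pos x.2] at this
  have hco : ∀ F, g F ∈ coordTabs (2 * b + 5) ↔ F ∈ coords (2 * b + 5) := by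
    intro F
    simp only [coordTabs, List.mem_map, List.mem_range]
    constructor
    · rintro ⟨i, hi, h⟩
      refine ⟨i, hi, hinj ?_⟩
      rw [← h]
      exact (hg _).symm
    · rintro ⟨i, hi, rfl⟩
      exact ⟨i, hi, (hg _).symm⟩
  have h1 : cntN (2 * b + 5) (tabs (2 * b + 5) (outs b E)) =
      ((tabs (2 * b + 5) (outs b E)).toFinset.filter fun t => t ∉ coordTabs (2 * b + 5)).card := by
    have h2 := List.toFinset_card_of_nodup (((tabs (2 * b + 5) (outs b E)).nodup_dedup).filter
      fun t => !(coordTabs (2 * b + 5)).contains t)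
    rw [cntN, ← h2]
    congr 1
    ext t
    simp
  have h3 : ((tabs (2 * b + 5) (outs b E)).toFinset.filter fun t => t ∉ coordTabs (2 * b + 5)) =
      (((outs b E).map (res (2 * b + 5))).toFinset.filter fun F => F ∉ coords (2 * b + 5)).image g := by
    ext t
    simp only [Finset.mem_filter, List.mem_toFinset, Finset.mem_image, tabs, List.mem_map]
    constructor
    · rintro ⟨⟨f, hf, rfl⟩, h⟩
      exact ⟨res _ f, ⟨⟨f, hf, rfl⟩, fun h' => h (by rw [← hg]; exact (hco _).2 h')⟩, hg f⟩
    · rintro ⟨F, ⟨⟨f, hf, rfl⟩, h⟩, rfl⟩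
      exact ⟨⟨f, hf, (hg f).symm⟩, fun h' => h ((hco _).1 h')⟩
  rw [h1, h3, Finset.card_image_of_injective _ hinj, cnt]

/-! ## The conflict graph of a formula -/

/-- the occurrences of literals -/
def occ (φ : CNF) : List (ℕ × ℕ × Bool) :=
  (List.range φ.2.length).flatMap fun C => (cl φ C).map fun l => (C, l)

/-- conflicts -/
def conf (p q : ℕ × ℕ × Bool) : Bool :=
  decide (p.1 = q.1) || (decide (p.2.1 = q.2.1) && (p.2.2 ^^ q.2.2))

/-- an occurrence -/
def oc (φ : CNF) (u : ℕ) : ℕ × ℕ × Bool := ((occ φ)[u]?).getD (0, 0, false)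

/-- the conflict graph -/
def edges (φ : CNF) : List (ℕ × ℕ) :=
  (List.range (occ φ).length).flatMap fun v =>
    (List.range v).filterMap fun u => if conf (oc φ u) (oc φ v) = true then some (u, v) else none

theorem mem_edges {φ : CNF} {e : ℕ × ℕ} : e ∈ edges φ ↔ e.1 < e.2 ∧ e.2 < (occ φ).length ∧
    conf (oc φ e.1) (oc φ e.2) = true := by
  simp only [edges, List.mem_flatMap, List.mem_range, List.mem_filterMap]
  constructor
  · rintro ⟨v, hv, u, hu, h⟩
    split_ifs at h with h1
    cases h
    exact ⟨hu, hv, h1⟩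
  · rintro ⟨h1, h2, h3⟩
    refine ⟨e.2, h2, e.1, h1, ?_⟩
    rw [if_pos h3]

theorem oc_mem {φ : CNF} {u : ℕ} (hu : u < (occ φ).length) : (oc φ u).1 < φ.2.length ∧
    (oc φ u).2 ∈ cl φ (oc φ u).1 := by
  have h1 : oc φ u ∈ occ φ := by
    rw [oc, List.getElem?_eq_getElem hu]
    exact List.getElem_mem _
  simp only [occ, List.mem_flatMap, List.mem_range, List.mem_map] at h1
  obtain ⟨C, hC, l, hl, h2⟩ := h1
  rw [← h2]
  exact ⟨hC, hl⟩

theorem exists_oc {φ : CNF} {C : ℕ} (hC : C < φ.2.length) {l : ℕ × Bool} (hl : l ∈ cl φ C) :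
    ∃ u < (occ φ).length, oc φ u = (C, l) := by
  have h1 : (C, l) ∈ occ φ := by
    simp only [occ, List.mem_flatMap, List.mem_range, List.mem_map]
    exact ⟨C, hC, l, hl, rfl⟩
  obtain ⟨u, hu, h2⟩ := List.mem_iff_getElem.1 h1
  exact ⟨u, hu, by rw [oc, List.getElem?_eq_getElem hu, h2]; rfl⟩

theorem conf_comm (p q : ℕ × ℕ × Bool) : conf p q = conf q p := by
  unfold conf
  rw [Bool.xor_comm]
  simp only [eq_comm]

theorem mem_clauses {φ : CNF} {c : List (ℕ × Bool)} : c ∈ φ.2 ↔ ∃ C < φ.2.length, cl φ C = c := by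
  constructor
  · intro h
    obtain ⟨C, hC, h1⟩ := List.mem_iff_getElem.1 h
    exact ⟨C, hC, by simp [cl, List.getElem?_eq_getElem hC, h1]⟩
  · rintro ⟨C, hC, rfl⟩
    simp [cl, List.getElem?_eq_getElem hC]

/-- satisfiability and vertex covers -/
theorem sat_iff_cover (φ : CNF) : Sat φ ↔ ∃ C : Finset ℕ, (∀ e ∈ edges φ, e.1 ∈ C ∨ e.2 ∈ C) ∧
    φ.2.length + C.card ≤ (occ φ).length := by
  constructor
  · rintro ⟨a, ha⟩
    have h1 : ∀ C, ∃ u, C < φ.2.length → u < (occ φ).length ∧ (oc φ u).1 = C ∧
        a (oc φ u).2.1 = (oc φ u).2.2 := by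
      intro C
      by_cases hC : C < φ.2.length
      · obtain ⟨l, hl, h2⟩ := ha (cl φ C) (mem_clauses.2 ⟨C, hC, rfl⟩)
        obtain ⟨u, hu, h3⟩ := exists_oc hC hl
        exact ⟨u, fun _ => ⟨hu, by rw [h3], by rw [h3]; exact h2⟩⟩
      · exact ⟨0, fun h => absurd h hC⟩
    choose w hw using h1
    refine ⟨(Finset.range (occ φ).length) \ ((Finset.range φ.2.length).image w), fun e he => ?_, ?_⟩
    · obtain ⟨h2, h3, h4⟩ := mem_edges.1 he
      by_contra h5
      rw [not_or] at h5
      simp only [Finset.mem_sdiff, Finset.mem_range, Finset.mem_image, not_and, not_not] at h5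
      obtain ⟨C, hC, hC'⟩ := h5.1 (by omega)
      obtain ⟨C', hC1, hC1'⟩ := h5.2 h3
      obtain ⟨k1, k2, k3⟩ := hw C hC
      obtain ⟨k1', k2', k3'⟩ := hw C' hC1
      rw [hC'] at k2 k3
      rw [hC1'] at k2' k3'
      simp only [conf, Bool.or_eq_true, decide_eq_true_eq, Bool.and_eq_true] at h4
      rcases h4 with h4 | ⟨h4, h6⟩
      · rw [k2, k2'] at h4
        subst h4
        omega
      · rw [h4, k3'] at k3
        rw [k3] at h6
        simp at h6
    · have h2 : ((Finset.range φ.2.length).image w).card = φ.2.length := by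
        rw [Finset.card_image_of_injOn, Finset.card_range]
        intro C hC C' hC' h
        have k1 := (hw C (Finset.mem_range.1 hC)).2.1
        have k2 := (hw C' (Finset.mem_range.1 hC')).2.1
        rw [← k1, ← k2, h]
      have h3 : (Finset.range φ.2.length).image w ⊆ Finset.range (occ φ).length := by
        intro u hu
        obtain ⟨C, hC, rfl⟩ := Finset.mem_image.1 hu
        exact Finset.mem_range.2 (hw C (Finset.mem_range.1 hC)).1
      have h4 := Finset.card_le_card h3
      rw [Finset.card_sdiff_of_subset h3, h2, Finset.card_range]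
      rw [h2, Finset.card_range] at h4
      omega
  · rintro ⟨C, hC, hcard⟩
    let I : Finset ℕ := (Finset.range (occ φ).length) \ C
    have hI : ∀ u ∈ I, ∀ v ∈ I, u ≠ v → conf (oc φ u) (oc φ v) = false := by
      have key : ∀ u ∈ I, ∀ v ∈ I, u < v → conf (oc φ u) (oc φ v) = false := by
        intro u hu v hv huv
        rw [Finset.mem_sdiff, Finset.mem_range] at hu hv
        by_contra h
        rcases hC (u, v) (mem_edges.2 ⟨huv, hv.1, by simpa using h⟩) with h1 | h1
        · exact hu.2 h1
        · exact hv.2 h1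
      intro u hu v hv huv
      rcases lt_or_gt_of_ne huv with h | h
      · exact key u hu v hv h
      · rw [conf_comm]
        exact key v hv u hu h
    have hinj : Set.InjOn (fun u => (oc φ u).1) (I : Set ℕ) := by
      intro u hu v hv h
      by_contra huv
      have := hI u hu v hv huv
      simp only [conf, Bool.or_eq_false_iff, decide_eq_false_iff_not] at this
      exact this.1 h
    have hcI : φ.2.length ≤ I.card := by
      have h1 := Finset.card_sdiff_add_card (Finset.range (occ φ).length) C
      have h2 := Finset.card_le_card (Finset.subset_union_left (s₁ := Finset.range (occ φ).length) (s₂ := C))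
      rw [Finset.card_range] at h2
      have h3 : I.card = ((Finset.range (occ φ).length) \ C).card := rfl
      omega
    have himg : I.image (fun u => (oc φ u).1) = Finset.range φ.2.length := by
      refine Finset.eq_of_subset_of_card_le ?_ ?_
      · intro D hD
        obtain ⟨u, hu, rfl⟩ := Finset.mem_image.1 hD
        exact Finset.mem_range.2 (oc_mem (Finset.mem_range.1 (Finset.mem_sdiff.1 hu).1)).1
      · rw [Finset.card_range, Finset.card_image_of_injOn hinj]
        exact hcI
    classical
    refine ⟨fun v => decide (∃ u ∈ I, (oc φ u).2 = (v, true)), fun c hc => ?_⟩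
    obtain ⟨D, hD, rfl⟩ := mem_clauses.1 hc
    have h1 : D ∈ I.image (fun u => (oc φ u).1) := by
      rw [himg]
      exact Finset.mem_range.2 hD
    obtain ⟨u, hu, h2⟩ := Finset.mem_image.1 h1
    have h3 := (oc_mem (Finset.mem_range.1 (Finset.mem_sdiff.1 hu).1)).2
    rw [h2] at h3
    refine ⟨_, h3, ?_⟩
    cases h4 : (oc φ u).2.2
    · rw [decide_eq_false_iff_not]
      rintro ⟨v, hv, h5⟩
      have huv : u ≠ v := by
        rintro rfl
        rw [h5] at h4
        simp at h4
      have h6 := hI u hu v hv huv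
      simp only [conf, Bool.or_eq_false_iff, Bool.and_eq_false_iff, decide_eq_false_iff_not] at h6
      rcases h6.2 with h7 | h7
      · rw [h5] at h7
        exact h7 rfl
      · rw [h5, h4] at h7
        simp at h7
    · rw [decide_eq_true_eq]
      exact ⟨u, hu, Prod.ext rfl h4⟩

end Pool.Agent.Lib.MultiMCSP
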