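import Pool.Agent.Lib.MP_a221bc_multi.Statement
import Pool.Agent.Lib.MP_a221bc_esop.Red

/-!
# Straight-line programs of Boolean functions
-/

namespace Pool.Agent.Lib.MultiMCSP

open Pool.Agent.Lib.EsopHard

/-! ## Straight-line programs -/

section

variable {D D' : Type}

/-- `f` is the output of a gate with inputs in `L` or in `Free` -/
def Step (Free : Set (D → Bool)) (L : List (D → Bool)) (f : D → Bool) : Prop :=
  ∃ a, (a ∈ L ∨ a ∈ Free) ∧ ((f = fun x => !a x) ∨ ∃ b, (b ∈ L ∨ b ∈ Free) ∧
    ((f = fun x => a x && b x) ∨ f = fun x => a x || b x))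

/-- straight-line programs; the last function is the head -/
inductive SLP (Free : Set (D → Bool)) : List (D → Bool) → Prop
  | nil : SLP Free []
  | cons {f : D → Bool} {L : List (D → Bool)} (h : SLP Free L) (hs : Step Free L f) : SLP Free (f :: L)

theorem Step.mono {Free : Set (D → Bool)} {L L' : List (D → Bool)} {f : D → Bool} (h : Step Free L f)
    (hL : ∀ a ∈ L, a ∈ L' ∨ a ∈ Free) : Step Free L' f := by
  obtain ⟨a, ha, h⟩ := h
  have key : ∀ a, a ∈ L ∨ a ∈ Free → a ∈ L' ∨ a ∈ Free := fun a ha => ha.elim (hL a) Or.inr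
  refine ⟨a, key a ha, h.imp id ?_⟩
  rintro ⟨b, hb, h⟩
  exact ⟨b, key b hb, h⟩

/-- first occurrence -/
theorem SLP.first {Free : Set (D → Bool)} {L : List (D → Bool)} (h : SLP Free L) {f : D → Bool}
    (hf : f ∈ L) : ∃ L', (∀ a ∈ L', a ∈ L) ∧ f ∉ L' ∧ Step Free L' f := by
  induction h with
  | nil => simp at hf
  | @cons g L h hs ih =>
    by_cases h1 : f ∈ L
    · obtain ⟨L', h2, h3, h4⟩ := ih h1
      exact ⟨L', fun a ha => List.mem_cons_of_mem _ (h2 a ha), h3, h4⟩
    · have h2 : f = g := by
        rcases List.mem_cons.1 hf with h | h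
        · exact h
        · exact absurd h h1
      subst h2
      exact ⟨L, fun a ha => List.mem_cons_of_mem _ ha, h1, hs⟩

/-- without repetitions and without free functions -/
theorem SLP.reduce {Free : Set (D → Bool)} {L : List (D → Bool)} (h : SLP Free L) :
    ∃ L', SLP Free L' ∧ L'.Nodup ∧ (∀ a ∈ L', a ∈ L ∧ a ∉ Free) ∧ ∀ a ∈ L, a ∈ L' ∨ a ∈ Free := by
  classical
  induction h with
  | nil => exact ⟨[], SLP.nil, List.nodup_nil, by simp, by simp⟩
  | @cons g L h hs ih =>
    obtain ⟨L', h1, h2, h3, h4⟩ := ih
    by_cases h5 : g ∈ L' ∨ g ∈ Free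
    · refine ⟨L', h1, h2, fun a ha => ⟨List.mem_cons_of_mem _ (h3 a ha).1, (h3 a ha).2⟩, fun a ha => ?_⟩
      rcases List.mem_cons.1 ha with h | h
      · rw [h]; exact h5
      · exact h4 a h
    · rw [not_or] at h5
      refine ⟨g :: L', SLP.cons h1 (hs.mono h4), List.nodup_cons.2 ⟨h5.1, h2⟩, fun a ha => ?_, fun a ha => ?_⟩
      · rcases List.mem_cons.1 ha with h | h
        · rw [h]
          exact ⟨List.mem_cons_self .., h5.2⟩
        · exact ⟨List.mem_cons_of_mem _ (h3 a h).1, (h3 a h).2⟩
      · rcases List.mem_cons.1 ha with h | h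
        · rw [h]
          exact Or.inl (List.mem_cons_self ..)
        · exact (h4 a h).imp (List.mem_cons_of_mem _) id

/-- pullback -/
theorem SLP.comap {Free : Set (D → Bool)} {Free' : Set (D' → Bool)} (ρ : D' → D)
    (hρ : ∀ a ∈ Free, (fun x => a (ρ x)) ∈ Free') {L : List (D → Bool)} (h : SLP Free L) :
    SLP Free' (L.map fun a x => a (ρ x)) := by
  induction h with
  | nil => exact SLP.nil
  | @cons g L h hs ih =>
    refine SLP.cons ih ?_
    obtain ⟨a, ha, hs⟩ := hs
    have key : ∀ a, a ∈ L ∨ a ∈ Free → (fun x => a (ρ x)) ∈ L.map (fun a x => a (ρ x)) ∨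
        (fun x => a (ρ x)) ∈ Free' := fun a ha => ha.imp (fun h => List.mem_map.2 ⟨a, h, rfl⟩) (hρ a)
    refine ⟨_, key a ha, ?_⟩
    rcases hs with rfl | ⟨b, hb, hs⟩
    · exact Or.inl rfl
    · refine Or.inr ⟨_, key b hb, ?_⟩
      rcases hs with rfl | rfl
      · exact Or.inl rfl
      · exact Or.inr rfl

/-- one more function -/
theorem SLP.push {Free : Set (D → Bool)} {L : List (D → Bool)} (h : SLP Free L) {f : D → Bool}
    (hf : Step Free L f) : SLP Free (f :: L) := SLP.cons h hf

/-- more functions, each of them computed from the earlier ones -/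
theorem SLP.pushAll {Free : Set (D → Bool)} {L : List (D → Bool)} (h : SLP Free L) :
    ∀ l : List (D → Bool), (∀ f ∈ l, Step Free L f) → SLP Free (l.reverse ++ L)
  | [], _ => by simpa using h
  | f :: l, hl => by
    have h1 : SLP Free (f :: L) := h.cons (hl f (List.mem_cons_self ..))
    have h2 := h1.pushAll l fun g hg => (hl g (List.mem_cons_of_mem _ hg)).mono
      fun a ha => Or.inl (List.mem_cons_of_mem _ ha)
    simpa using h2

end

/-! ## Points and coordinates -/

/-- the points of the cube -/
abbrev P (n : ℕ) : Type := {x : List Bool // x.length = n}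

/-- the coordinate functions -/
def coords (n : ℕ) : Set (P n → Bool) := {f | ∃ i < n, f = fun x => x.1.getD i false}

theorem wires_append (gs : List Gate) (g : Gate) (x : List Bool) :
    wires (gs ++ [g]) x = wires gs x ++ [g.val (wires gs x)] := by
  simp [wires]

theorem length_wires (gs : List Gate) (x : List Bool) : (wires gs x).length = x.length + gs.length := by
  induction gs using List.reverseRecOn with
  | nil => rfl
  | append_singleton gs g ih =>
    rw [wires_append, List.length_append, ih, List.length_append]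
    simp
    ring

theorem isCircuit_append {n : ℕ} {gs : List Gate} {g : Gate} :
    IsCircuit n (gs ++ [g]) ↔ IsCircuit n gs ∧ g.Ok (n + gs.length) := by
  constructor
  · intro h
    refine ⟨fun k hk => ?_, ?_⟩
    · have := h k (by rw [List.length_append]; exact lt_of_lt_of_le hk (Nat.le_add_right _ _))
      rwa [List.getElem_append_left hk] at this
    · have := h gs.length (by simp)
      simpa using this
  · rintro ⟨h1, h2⟩ k hk
    by_cases h3 : k < gs.length
    · rw [List.getElem_append_left h3]
      exact h1 k h3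
    · have h4 : k = gs.length := by
        rw [List.length_append, List.length_singleton] at hk
        omega
      subst h4
      simpa using h2

theorem getD_append_left' {l l' : List Bool} {i : ℕ} (h : i < l.length) :
    (l ++ l').getD i false = l.getD i false := by
  simp [List.getD_eq_getElem?_getD, List.getElem?_append_left h]

theorem getD_append_last (l : List Bool) (b : Bool) {i : ℕ} (h : i = l.length) :
    (l ++ [b]).getD i false = b := by
  subst h
  simp [List.getD_eq_getElem?_getD]

/-- circuits give straight-line programs -/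
theorem slp_of_circuit {n : ℕ} {gs : List Gate} (h : IsCircuit n gs) :
    ∃ L : List (P n → Bool), SLP (coords n) L ∧ L.length = gs.length ∧ ∀ i < n + gs.length,
      (fun x : P n => (wires gs x.1).getD i false) ∈ L ∨
        (fun x : P n => (wires gs x.1).getD i false) ∈ coords n := by
  induction gs using List.reverseRecOn with
  | nil => exact ⟨[], SLP.nil, rfl, fun i hi => Or.inr ⟨i, by simpa using hi, rfl⟩⟩
  | append_singleton gs g ih =>
    obtain ⟨h1, h2⟩ := isCircuit_append.1 h
    obtain ⟨L, h3, h4, h5⟩ := ih h1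
    have hw : ∀ i < n + gs.length, (fun x : P n => (wires (gs ++ [g]) x.1).getD i false) =
        fun x : P n => (wires gs x.1).getD i false := by
      intro i hi
      funext x
      rw [wires_append, getD_append_left' (by rw [length_wires, x.2]; exact hi)]
    have hl : (fun x : P n => (wires (gs ++ [g]) x.1).getD (n + gs.length) false) =
        fun x : P n => g.val (wires gs x.1) := by
      funext x
      rw [wires_append, getD_append_last _ _ (by rw [length_wires, x.2])]
    refine ⟨(fun x => g.val (wires gs x.1)) :: L, h3.cons ?_, by simp [h4], fun i hi => ?_⟩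
    · rcases g with i | ⟨i, j⟩ | ⟨i, j⟩
      · exact ⟨_, h5 i h2, Or.inl rfl⟩
      · exact ⟨_, h5 i h2.1, Or.inr ⟨_, h5 j h2.2, Or.inl rfl⟩⟩
      · exact ⟨_, h5 i h2.1, Or.inr ⟨_, h5 j h2.2, Or.inr rfl⟩⟩
    · by_cases h6 : i < n + gs.length
      · rw [hw i h6]
        exact (h5 i h6).imp (List.mem_cons_of_mem _) id
      · have h7 : i = n + gs.length := by
          rw [List.length_append, List.length_singleton] at hi
          omega
        subst h7
        rw [hl]
        exact Or.inl (List.mem_cons_self ..)

/-- straight-line programs give circuits -/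
theorem circuit_of_slp {n : ℕ} {L : List (P n → Bool)} (h : SLP (coords n) L) :
    ∃ gs : List Gate, IsCircuit n gs ∧ gs.length = L.length ∧ ∀ f, f ∈ L ∨ f ∈ coords n →
      ∃ i < n + gs.length, f = fun x : P n => (wires gs x.1).getD i false := by
  induction h with
  | nil =>
    refine ⟨[], fun k hk => by simp at hk, rfl, ?_⟩
    rintro f (hf | ⟨i, hi, rfl⟩)
    · simp at hf
    · exact ⟨i, by simpa using hi, rfl⟩
  | @cons g L h hs ih =>
    obtain ⟨gs, h1, h2, h3⟩ := ih
    have key : ∃ G : Gate, G.Ok (n + gs.length) ∧ g = fun x : P n => G.val (wires gs x.1) := by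
      obtain ⟨a, ha, hs⟩ := hs
      obtain ⟨i, hi, rfl⟩ := h3 a ha
      rcases hs with rfl | ⟨b, hb, hs⟩
      · exact ⟨.not i, hi, rfl⟩
      · obtain ⟨j, hj, rfl⟩ := h3 b hb
        rcases hs with rfl | rfl
        · exact ⟨.and i j, ⟨hi, hj⟩, rfl⟩
        · exact ⟨.or i j, ⟨hi, hj⟩, rfl⟩
    obtain ⟨G, hG, rfl⟩ := key
    refine ⟨gs ++ [G], isCircuit_append.2 ⟨h1, hG⟩, by simp [h2], fun f hf => ?_⟩
    have hold : ∀ i < n + gs.length, (fun x : P n => (wires gs x.1).getD i false) =
        fun x : P n => (wires (gs ++ [G]) x.1).getD i false := by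
      intro i hi
      funext x
      rw [wires_append, getD_append_left' (by rw [length_wires, x.2]; exact hi)]
    by_cases h4 : f ∈ L ∨ f ∈ coords n
    · obtain ⟨i, hi, rfl⟩ := h3 f h4
      refine ⟨i, by rw [List.length_append]; omega, hold i hi⟩
    · have h5 : f = fun x : P n => G.val (wires gs x.1) := by
        rw [not_or] at h4
        rcases hf with hf | hf
        · rcases List.mem_cons.1 hf with h | h
          · exact h
          · exact absurd h h4.1
        · exact absurd hf h4.2
      refine ⟨n + gs.length, by simp, ?_⟩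
      rw [h5]
      funext x
      rw [wires_append, getD_append_last _ _ (by rw [length_wires, x.2])]

end Pool.Agent.Lib.MultiMCSP
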