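import Pool.Agent.Lib.MP_a221bc_multi.Poly

/-!
# Every function has a circuit of polynomial size
-/

set_option linter.unusedSimpArgs false

namespace Pool.Agent.Lib.MultiMCSP

open Pool.Agent.Lib.EsopHard

/-- the union of some points -/
def fpart (F : List Bool → Bool) (ps : List (List Bool)) (x : List Bool) : Bool :=
  ps.any fun p => F p && decide (x = p)

/-- all functions which are used -/
def allF (n : ℕ) (l : List (List Bool → Bool)) : List (List Bool → Bool) :=
  (List.range n).map fnot ++ ((sig n).map fcube ++ ((fun _ => false) ::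
    l.flatMap fun F => (points n).tails.map (fpart F)))

/-- bound for the size of the circuits -/
def bnd (n k : ℕ) : ℕ := n + (n * 2 ^ n + (1 + k * (2 ^ n + 1)))

theorem length_sig_le (n : ℕ) : (sig n).length ≤ n * 2 ^ n := by
  rw [sig, List.length_flatMap]
  calc ((List.range n).map fun k => (points (k + 1)).length).sum
      ≤ ((List.range n).map fun k => (points (k + 1)).length).length • 2 ^ n := by
        refine List.sum_le_card_nsmul _ _ fun x hx => ?_
        obtain ⟨k, hk, rfl⟩ := List.mem_map.1 hx
        rw [length_points]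
        exact Nat.pow_le_pow_right (by norm_num) (List.mem_range.1 hk)
    _ = n * 2 ^ n := by simp

theorem length_allF (n : ℕ) (l : List (List Bool → Bool)) : (allF n l).length ≤ bnd n l.length := by
  have h1 := length_sig_le n
  have h2 : (l.flatMap fun F => (points n).tails.map (fpart F)).length = l.length * (2 ^ n + 1) := by
    rw [List.length_flatMap]
    simp [length_points]
  simp only [allF, bnd, List.length_append, List.length_map, List.length_range, List.length_cons, h2]
  omega

/-- allowed functions -/
def AlS (n : ℕ) (l : List (List Bool → Bool)) : Set (P n → Bool) := {G | ∃ f ∈ allF n l, G = res n f}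

theorem comp_short {n : ℕ} (hn : 1 ≤ n) (l : List (List Bool → Bool)) {F : List Bool → Bool} (hF : F ∈ l) :
    Comp (coords n) (AlS n l) (res n F) := by
  have hcoord : ∀ i < n, Comp (coords n) (AlS n l) (res n fun x => x.getD i false) := fun i hi =>
    Comp.free ⟨i, hi, rfl⟩
  have hnot : ∀ i < n, Comp (coords n) (AlS n l) (res n (fnot i)) := fun i hi =>
    Comp.not (hcoord i hi) ⟨fnot i, List.mem_append_left _ (List.mem_map.2 ⟨i, List.mem_range.2 hi, rfl⟩), rfl⟩
      fun _ => rfl
  have hlit : ∀ i < n, ∀ c : Bool, ∃ a, Comp (coords n) (AlS n l) a ∧ ∀ x, a x = (x.1.getD i false == c) := by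
    intro i hi c
    cases c
    · exact ⟨_, hnot i hi, fun x => by simp [res, fnot]⟩
    · exact ⟨_, hcoord i hi, fun x => by simp [res]⟩
  have hsig : ∀ σ : List Bool, 1 ≤ σ.length → σ.length ≤ n → res n (fcube σ) ∈ AlS n l := by
    intro σ h1 h2
    refine ⟨fcube σ, List.mem_append_right _ (List.mem_append_left _ (List.mem_map.2 ⟨σ, ?_, rfl⟩)), rfl⟩
    rw [sig, List.mem_flatMap]
    exact ⟨σ.length - 1, List.mem_range.2 (by omega), mem_points.2 (by omega)⟩
  have hcube : ∀ σ : List Bool, 1 ≤ σ.length → σ.length ≤ n →
      Comp (coords n) (AlS n l) (res n (fcube σ)) := by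
    intro σ h1 h2
    induction σ using List.reverseRecOn with
    | nil => simp at h1
    | append_singleton σ c ih =>
      rw [List.length_append, List.length_singleton] at h2
      have hx : ∀ x : P n, σ.length < x.1.length := fun x => by rw [x.2]; omega
      obtain ⟨a, ha, ha'⟩ := hlit σ.length (by omega) c
      rcases Nat.eq_zero_or_pos σ.length with h3 | h3
      · have h4 : σ = [] := List.eq_nil_of_length_eq_zero h3
        have h5 : res n (fcube (σ ++ [c])) = a := by
          funext x
          show fcube (σ ++ [c]) x.1 = a x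
          rw [fcube_append σ c (hx x), ha', h4, fcube_nil, Bool.true_and]
        rw [h5]
        exact ha
      · refine Comp.and (ih h3 (by omega)) ha (hsig _ (by simp) (by simp; omega)) fun x => ?_
        rw [ha']
        exact fcube_append σ c (hx x)
  have hfalse : Comp (coords n) (AlS n l) (res n fun _ => false) := by
    refine Comp.and (hcoord 0 (by omega)) (hnot 0 (by omega)) ⟨fun _ => false, List.mem_append_right _
      (List.mem_append_right _ (List.mem_cons_self ..)), rfl⟩ fun x => ?_
    show false = (x.1.getD 0 false && !(x.1.getD 0 false))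
    simp
  have hpart : ∀ ps : List (List Bool), ps <:+ points n → Comp (coords n) (AlS n l) (res n (fpart F ps)) := by
    intro ps
    induction ps with
    | nil => intro _; exact hfalse
    | cons p ps ih =>
      intro hs
      have hs' : ps <:+ points n := (List.suffix_cons p ps).trans hs
      have hp : p.length = n := mem_points.1 (hs.subset (List.mem_cons_self ..))
      have hal : res n (fpart F (p :: ps)) ∈ AlS n l := by
        refine ⟨fpart F (p :: ps), List.mem_append_right _ (List.mem_append_right _
          (List.mem_cons_of_mem _ ?_)), rfl⟩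
        rw [List.mem_flatMap]
        exact ⟨F, hF, List.mem_map.2 ⟨p :: ps, (List.mem_tails _ _).2 hs, rfl⟩⟩
      by_cases h : F p = true
      · refine Comp.or (hcube p (by omega) hp.le) (ih hs') hal fun x => ?_
        show fpart F (p :: ps) x.1 = (fcube p x.1 || fpart F ps x.1)
        have h1 : fcube p x.1 = decide (x.1 = p) := by
          rw [fcube, decide_eq_decide]
          exact take_eq_self (by rw [x.2, hp])
        rw [h1, fpart, List.any_cons, h, Bool.true_and]
        rfl
      · have h2 : res n (fpart F (p :: ps)) = res n (fpart F ps) := by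
          funext x
          show fpart F (p :: ps) x.1 = fpart F ps x.1
          have h' : F p = false := by simpa using h
          rw [fpart, List.any_cons, h', Bool.false_and, Bool.false_or]
          rfl
        rw [h2]
        exact ih hs'
  have h1 := hpart (points n) List.suffix_rfl
  have h2 : res n (fpart F (points n)) = res n F := by
    funext x
    show fpart F (points n) x.1 = F x.1
    rw [fpart, Bool.eq_iff_iff, List.any_eq_true]
    constructor
    · rintro ⟨p, -, hp⟩
      simp only [Bool.and_eq_true, decide_eq_true_eq] at hp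
      rw [hp.2]
      exact hp.1
    · intro h
      exact ⟨x.1, mem_points.2 x.2, by simp [h]⟩
  rwa [h2] at h1

/-- short circuits -/
theorem exists_short {n : ℕ} (hn : 1 ≤ n) (l : List (List Bool → Bool)) :
    ∃ gs : List Gate, IsCircuit n gs ∧ gs.length ≤ bnd n l.length ∧ Computes n gs (tabs n l) := by
  classical
  obtain ⟨L, h1, h2, h3⟩ := slp_of_comp (Free := coords n) (Al := AlS n l) (l.map (res n)) (by
      intro F hF
      obtain ⟨f, hf, rfl⟩ := List.mem_map.1 hF
      exact comp_short hn l hf)
  obtain ⟨L', h4, h5, h6, h7⟩ := h1.reduce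
  obtain ⟨gs, h8, h9, h10⟩ := circuit_of_slp h4
  refine ⟨gs, h8, ?_, fun t ht => ?_⟩
  · rw [h9, ← List.toFinset_card_of_nodup h5]
    have h11 : L'.toFinset ⊆ ((allF n l).map (res n)).toFinset := by
      intro F hF
      obtain ⟨f, hf, rfl⟩ := h2 F (h6 F (List.mem_toFinset.1 hF)).1
      exact List.mem_toFinset.2 (List.mem_map.2 ⟨f, hf, rfl⟩)
    refine (Finset.card_le_card h11).trans ((List.toFinset_card_le _).trans ?_)
    rw [List.length_map]
    exact length_allF n l
  · obtain ⟨f, hf, rfl⟩ := List.mem_map.1 ht
    have h11 : res n f ∈ L' ∨ res n f ∈ coords n := by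
      rcases h3 _ (List.mem_map.2 ⟨f, hf, rfl⟩) with h | h
      · exact h7 _ h
      · exact Or.inr h
    obtain ⟨i, hi, h12⟩ := h10 _ h11
    exact ⟨i, hi, table_eq.2 h12⟩

/-- a function with a small circuit has a small and short circuit -/
theorem exists_small {n s : ℕ} {T : List (List Bool)} (hT : 1 ≤ T.length) {gs : List Gate}
    (h1 : IsCircuit n gs) (h2 : gs.length ≤ s) (h3 : Computes n gs T) :
    ∃ gs : List Gate, IsCircuit n gs ∧ gs.length ≤ s ∧ gs.length ≤ bnd n T.length ∧ Computes n gs T := by
  by_cases h4 : gs.length ≤ bnd n T.length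
  · exact ⟨gs, h1, h2, h4, h3⟩
  have hn : 1 ≤ n := by
    by_contra h5
    have h6 : n = 0 := by omega
    subst h6
    rcases gs with _ | ⟨g, gs⟩
    · obtain ⟨t, ht⟩ := List.exists_mem_of_length_pos hT
      obtain ⟨i, hi, -⟩ := h3 t ht
      simp at hi
    · have h7 := h1 0 (by simp)
      rcases g with i | ⟨i, j⟩ | ⟨i, j⟩
      · exact absurd h7 (Nat.not_lt_zero _)
      · exact absurd h7.1 (Nat.not_lt_zero _)
      · exact absurd h7.1 (Nat.not_lt_zero _)
  choose! w hw using h3
  obtain ⟨gs', k1, k2, k3⟩ := exists_short hn (T.map fun t x => (wires gs x).getD (w t) false)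
  rw [List.length_map] at k2
  refine ⟨gs', k1, by omega, k2, fun t ht => ?_⟩
  have h5 : t ∈ tabs n (T.map fun t x => (wires gs x).getD (w t) false) := by
    rw [tabs, List.map_map]
    exact List.mem_map.2 ⟨t, ht, (hw t ht).2.symm⟩
  exact k3 t h5

end Pool.Agent.Lib.MultiMCSP
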