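import Pool.Agent.Lib.MP_a221bc_esop.Statement

/-!
# The minimum circuit size problem for functions with several outputs: statement

Circuits over the basis `∧, ∨, ¬` with gates of fan-in at most two; all gates are counted. The
functions are given by their truth tables.
-/

namespace Pool.Agent.Lib.MultiMCSP

open Pool.Agent.Lib.EsopHard

/-! ## Circuits -/

/-- A gate; the numbers `i`, `j` are the numbers of earlier wires. -/
inductive Gate
  | not (i : ℕ)
  | and (i j : ℕ)
  | or (i j : ℕ)

/-- The value of a gate, `w` being the list of the values of the earlier wires. -/
def Gate.val : Gate → List Bool → Bool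
  | .not i, w => !(w.getD i false)
  | .and i j, w => w.getD i false && w.getD j false
  | .or i j, w => w.getD i false || w.getD j false

/-- The inputs of the gate are among the first `m` wires. -/
def Gate.Ok : Gate → ℕ → Prop
  | .not i, m => i < m
  | .and i j, m => i < m ∧ j < m
  | .or i j, m => i < m ∧ j < m

/-- The list `gs` of gates is a circuit with `n` inputs: the wires `0, …, n - 1` are the inputs,
the wire `n + k` is the output of the gate number `k`, which uses only earlier wires. -/
def IsCircuit (n : ℕ) (gs : List Gate) : Prop := ∀ (k : ℕ) (h : k < gs.length), gs[k].Ok (n + k)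

/-- The values of all the wires of the circuit `gs` at the input `x`. -/
def wires (gs : List Gate) (x : List Bool) : List Bool := gs.foldl (fun w g => w ++ [g.val w]) x

/-- The circuit `gs` with `n` inputs computes the function with the truth tables `T`, one for each
output: every output is a wire. -/
def Computes (n : ℕ) (gs : List Gate) (T : List (List Bool)) : Prop :=
  ∀ t ∈ T, ∃ i < n + gs.length, t = (points n).map fun x => (wires gs x).getD i false

/-! ## The problem -/

/-- The decision problem (the inputs with answer yes). Input: a function
`f : {0, 1} ^ n → {0, 1} ^ k` with `1 ≤ k` and `k ^ c ≤ 2 ^ n`, given by the number `n` and the list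
`T` of the truth tables of its `k` outputs, and a number `s`. Question: is there a circuit with at
most `s` gates which computes `f`? -/
def MultiMCSP (c : ℕ) : Set (ℕ × List (List Bool) × ℕ) :=
  {p | 1 ≤ p.2.1.length ∧ p.2.1.length ^ c ≤ 2 ^ p.1 ∧
    ∃ gs : List Gate, IsCircuit p.1 gs ∧ gs.length ≤ p.2.2 ∧ Computes p.1 gs p.2.1}

/-- The bit string of an input `(n, T, s)`: the numbers `s` and `n` in binary, followed by the truth
tables. -/
def word (p : ℕ × List (List Bool) × ℕ) : List Bool :=
  natWord p.2.2 ++ (natWord p.1 ++ p.2.1.flatten)

/-- The decision problem, as a language: the bit strings of the inputs with answer yes. -/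
def MultiMCSPLanguage (c : ℕ) : Set (List Bool) := {w | ∃ p ∈ MultiMCSP c, word p = w}

end Pool.Agent.Lib.MultiMCSP
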