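import Pool.Agent.Lib.MP_a221bc_multi.Inst

/-!
# The upper bound: a vertex cover gives a straight-line program
-/

set_option linter.unusedSimpArgs false

namespace Pool.Agent.Lib.MultiMCSP

open Pool.Agent.Lib.EsopHard

section

variable {D : Type}

/-- computable from `Free`, all the gates being in `Al` -/
inductive Comp (Free Al : Set (D → Bool)) : (D → Bool) → Prop
  | free {f : D → Bool} (h : f ∈ Free) : Comp Free Al f
  | not {a f : D → Bool} (ha : Comp Free Al a) (hf : f ∈ Al) (e : ∀ x, f x = !a x) : Comp Free Al f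
  | and {a b f : D → Bool} (ha : Comp Free Al a) (hb : Comp Free Al b) (hf : f ∈ Al)
      (e : ∀ x, f x = (a x && b x)) : Comp Free Al f
  | or {a b f : D → Bool} (ha : Comp Free Al a) (hb : Comp Free Al b) (hf : f ∈ Al)
      (e : ∀ x, f x = (a x || b x)) : Comp Free Al f

theorem SLP.append {Free : Set (D → Bool)} {L L' : List (D → Bool)} (h : SLP Free L) (h' : SLP Free L') :
    SLP Free (L ++ L') := by
  induction h with
  | nil => exact h'
  | @cons g L h hs ih =>
    exact SLP.cons ih (hs.mono fun a ha => Or.inl (List.mem_append_left _ ha))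

theorem Comp.slp {Free Al : Set (D → Bool)} {f : D → Bool} (h : Comp Free Al f) :
    ∃ L, SLP Free L ∧ (∀ a ∈ L, a ∈ Al) ∧ (f ∈ L ∨ f ∈ Free) := by
  induction h with
  | free h => exact ⟨[], SLP.nil, by simp, Or.inr h⟩
  | @not a f ha hf e ih =>
    obtain ⟨L, h1, h2, h3⟩ := ih
    refine ⟨f :: L, h1.cons ⟨a, h3, Or.inl (funext e)⟩, fun b hb => ?_, Or.inl (List.mem_cons_self ..)⟩
    rcases List.mem_cons.1 hb with rfl | hb
    · exact hf
    · exact h2 b hb
  | @and a b f ha hb hf e ih1 ih2 =>
    obtain ⟨L, h1, h2, h3⟩ := ih1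
    obtain ⟨L', h1', h2', h3'⟩ := ih2
    refine ⟨f :: (L ++ L'), (h1.append h1').cons ⟨a, h3.imp (List.mem_append_left _) id,
      Or.inr ⟨b, h3'.imp (List.mem_append_right _) id, Or.inl (funext e)⟩⟩, fun c hc => ?_,
      Or.inl (List.mem_cons_self ..)⟩
    rcases List.mem_cons.1 hc with rfl | hc
    · exact hf
    · rcases List.mem_append.1 hc with hc | hc
      · exact h2 c hc
      · exact h2' c hc
  | @or a b f ha hb hf e ih1 ih2 =>
    obtain ⟨L, h1, h2, h3⟩ := ih1
    obtain ⟨L', h1', h2', h3'⟩ := ih2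
    refine ⟨f :: (L ++ L'), (h1.append h1').cons ⟨a, h3.imp (List.mem_append_left _) id,
      Or.inr ⟨b, h3'.imp (List.mem_append_right _) id, Or.inr (funext e)⟩⟩, fun c hc => ?_,
      Or.inl (List.mem_cons_self ..)⟩
    rcases List.mem_cons.1 hc with rfl | hc
    · exact hf
    · rcases List.mem_append.1 hc with hc | hc
      · exact h2 c hc
      · exact h2' c hc

theorem slp_of_comp {Free Al : Set (D → Bool)} : ∀ l : List (D → Bool), (∀ f ∈ l, Comp Free Al f) →
    ∃ L, SLP Free L ∧ (∀ a ∈ L, a ∈ Al) ∧ ∀ f ∈ l, f ∈ L ∨ f ∈ Free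
  | [], _ => ⟨[], SLP.nil, by simp, by simp⟩
  | f :: l, h => by
    obtain ⟨L, h1, h2, h3⟩ := slp_of_comp l fun g hg => h g (List.mem_cons_of_mem _ hg)
    obtain ⟨L', h1', h2', h3'⟩ := (h f (List.mem_cons_self ..)).slp
    refine ⟨L' ++ L, h1'.append h1, fun a ha => ?_, fun g hg => ?_⟩
    · rcases List.mem_append.1 ha with ha | ha
      · exact h2' a ha
      · exact h2 a ha
    · rcases List.mem_cons.1 hg with rfl | hg
      · exact h3'.imp (List.mem_append_left _) id
      · exact (h3 g hg).imp (List.mem_append_right _) id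

end

/-! ## Subcubes -/

theorem fcube_append (σ : List Bool) (c : Bool) {x : List Bool} (h : σ.length < x.length) :
    fcube (σ ++ [c]) x = (fcube σ x && (x.getD σ.length false == c)) := by
  unfold fcube
  rw [List.length_append, List.length_singleton, ← List.take_append_getElem h]
  have e : x.getD σ.length false = x[σ.length] := by
    rw [List.getD_eq_getElem?_getD, List.getElem?_eq_getElem h, Option.getD_some]
  rw [e, Bool.eq_iff_iff, decide_eq_true_eq, Bool.and_eq_true, decide_eq_true_eq, beq_iff_eq]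
  constructor
  · intro h2
    have h3 := List.append_inj_left' h2 rfl
    rw [h3] at h2
    exact ⟨h3, by simpa using h2⟩
  · rintro ⟨h2, h3⟩
    rw [h3, h2]

theorem fcube_nil (x : List Bool) : fcube [] x = true := by simp [fcube]

theorem fcube_mono {σ τ x : List Bool} (h : fcube (σ ++ τ) x = true) : fcube σ x = true := by
  unfold fcube at h ⊢
  rw [decide_eq_true_eq] at h ⊢
  have := congrArg (List.take σ.length) h
  rw [List.take_take, List.length_append, List.take_left, min_eq_left (Nat.le_add_right _ _)] at this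
  exact this

section

variable {b : ℕ} {E : List (ℕ × ℕ)} {C : Finset ℕ}

/-- the allowed functions -/
def Al (b : ℕ) (E : List (ℕ × ℕ)) (C : Finset ℕ) : Set (P (2 * b + 5) → Bool) :=
  {F | (∃ f ∈ outs b E, F = res _ f) ∨ ∃ u ∈ C, F = res _ (fh b u)}

theorem al_known {f : List Bool → Bool} (h : f ∈ known b E) : res (2 * b + 5) f ∈ Al b E C :=
  Or.inl ⟨f, List.mem_append_left _ h, rfl⟩

theorem comp_coord {i : ℕ} (hi : i < 2 * b + 5) :
    Comp (coords (2 * b + 5)) (Al b E C) (res _ fun x => x.getD i false) :=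
  Comp.free ⟨i, hi, rfl⟩

theorem comp_not {i : ℕ} (hi : i < 2 * b + 5) : Comp (coords (2 * b + 5)) (Al b E C) (res _ (fnot i)) :=
  Comp.not (comp_coord hi) (al_known (mem_known.2 (Or.inl ⟨i, hi, rfl⟩))) fun _ => rfl

theorem comp_lit {i : ℕ} (hi : i < 2 * b + 5) (c : Bool) :
    ∃ a, Comp (coords (2 * b + 5)) (Al b E C) a ∧ ∀ x, a x = (x.1.getD i false == c) := by
  cases c
  · exact ⟨_, comp_not hi, fun x => by simp [res, fnot]⟩
  · exact ⟨_, comp_coord hi, fun x => by simp [res]⟩

theorem comp_cube (σ : List Bool) (h1 : 1 ≤ σ.length) (h2 : σ.length ≤ 2 * b + 5) :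
    Comp (coords (2 * b + 5)) (Al b E C) (res _ (fcube σ)) := by
  induction σ using List.reverseRecOn with
  | nil => simp at h1
  | append_singleton σ c ih =>
    rw [List.length_append, List.length_singleton] at h2
    have hx : ∀ x : P (2 * b + 5), σ.length < x.1.length := fun x => by rw [x.2]; omega
    obtain ⟨a, ha, ha'⟩ := comp_lit (b := b) (E := E) (C := C) (i := σ.length) (by omega) c
    rcases Nat.eq_zero_or_pos σ.length with h3 | h3
    · have h4 : σ = [] := List.eq_nil_of_length_eq_zero h3
      have h5 : res (2 * b + 5) (fcube (σ ++ [c])) = a := by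
        funext x
        show fcube (σ ++ [c]) x.1 = a x
        rw [fcube_append σ c (hx x), ha', h4, fcube_nil, Bool.true_and]
      rw [h5]
      exact ha
    · refine Comp.and (ih h3 (by omega)) ha (al_known (mem_known.2 (Or.inr (Or.inl
        ⟨σ ++ [c], by simp, by simp; omega, rfl⟩)))) fun x => ?_
      rw [ha']
      exact fcube_append σ c (hx x)

theorem fD_one (c : Bool) {x : List Bool} (h : 3 ≤ x.length) : fD [c] x = fcube [true, false, !c] x := by
  have h' : [true, false].length < x.length := h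
  have e1 := fcube_append [true, false] c (x := x) h'
  have e2 := fcube_append [true, false] (!c) (x := x) h'
  rw [fD]
  simp only [List.cons_append, List.nil_append] at e1 e2
  rw [e1, e2]
  cases fcube [true, false] x <;> cases c <;> cases x.getD [true, false].length false <;> simp

theorem fD_append (σ : List Bool) (c : Bool) {x : List Bool} (h : σ.length + 2 < x.length) :
    fD (σ ++ [c]) x = (fD σ x || fcube (true :: false :: (σ ++ [!c])) x) := by
  have e1 := fcube_append (true :: false :: σ) c (x := x) (by simpa using h)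
  have e2 := fcube_append (true :: false :: σ) (!c) (x := x) (by simpa using h)
  have e3 : fcube (true :: false :: σ) x = true → fcube [true, false] x = true := fun h' =>
    fcube_mono (σ := [true, false]) (τ := σ) h'
  rw [fD, fD]
  simp only [List.cons_append] at e1 e2
  rw [e1, e2]
  revert e3
  cases fcube [true, false] x <;> cases fcube (true :: false :: σ) x <;> cases c <;>
    cases x.getD (true :: false :: σ).length false <;> simp

theorem comp_D (σ : List Bool) (h1 : 1 ≤ σ.length) (h2 : σ.length ≤ 2 * b + 3) :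
    Comp (coords (2 * b + 5)) (Al b E C) (res _ (fD σ)) := by
  induction σ using List.reverseRecOn with
  | nil => simp at h1
  | append_singleton σ c ih =>
    rw [List.length_append, List.length_singleton] at h2
    rcases Nat.eq_zero_or_pos σ.length with h3 | h3
    · have h4 : σ = [] := List.eq_nil_of_length_eq_zero h3
      have h5 : res (2 * b + 5) (fD (σ ++ [c])) = res _ (fcube [true, false, !c]) := by
        funext x
        show fD (σ ++ [c]) x.1 = fcube [true, false, !c] x.1
        rw [h4, List.nil_append, fD_one c (by rw [x.2]; omega)]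
      rw [h5]
      exact comp_cube _ (by simp) (by simp)
    · exact Comp.or (ih h3 (by omega)) (comp_cube (true :: false :: (σ ++ [!c])) (by simp) (by simp; omega))
        (al_known (mem_known.2 (Or.inr (Or.inr (Or.inl ⟨σ ++ [c], by simp, by simp; omega, rfl⟩)))))
        fun x => fD_append σ c (by rw [x.2]; omega)

theorem comp_g {e : ℕ × ℕ} (he : e ∈ E) {u : ℕ} (hu : u = e.1 ∨ u = e.2) :
    Comp (coords (2 * b + 5)) (Al b E C) (res _ (fg b u e)) := by
  refine Comp.or (comp_cube (false :: pl b u) (by simp) (by rw [List.length_cons, length_pl]))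
    (comp_D (rl b e) (by rw [length_rl]; omega) (by rw [length_rl]))
    (al_known (mem_known.2 (Or.inr (Or.inr (Or.inr ⟨e, he, ?_⟩))))) fun x => rfl
  rcases hu with rfl | rfl
  · exact Or.inl rfl
  · exact Or.inr rfl

theorem comp_h {u : ℕ} (hu : u ∈ C) : Comp (coords (2 * b + 5)) (Al b E C) (res _ (fh b u)) :=
  Comp.or (comp_cube (false :: pl b u) (by simp) (by rw [List.length_cons, length_pl]))
    (comp_cube [true, true] (by simp) (by simp)) (Or.inr ⟨u, hu, rfl⟩) fun x => rfl

theorem comp_o {e : ℕ × ℕ} (he : e ∈ E) (hC : e.1 ∈ C ∨ e.2 ∈ C) :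
    Comp (coords (2 * b + 5)) (Al b E C) (res _ (fo b e)) := by
  have hal : res (2 * b + 5) (fo b e) ∈ Al b E C :=
    Or.inl ⟨fo b e, List.mem_append_right _ (List.mem_map.2 ⟨e, he, rfl⟩), rfl⟩
  rcases hC with h | h
  · exact Comp.or (comp_h h) (comp_g he (Or.inr rfl)) hal fun x => rfl
  · refine Comp.or (comp_h h) (comp_g he (Or.inl rfl)) hal fun x => ?_
    show fo b e x.1 = (fh b e.2 x.1 || fg b e.1 e x.1)
    unfold fo fh fg
    cases fcube (false :: pl b e.1) x.1 <;> cases fcube (false :: pl b e.2) x.1 <;>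
      cases fcube [true, true] x.1 <;> cases fD (rl b e) x.1 <;> rfl

theorem comp_outs (hC : ∀ e ∈ E, e.1 ∈ C ∨ e.2 ∈ C) {f : List Bool → Bool} (hf : f ∈ outs b E) :
    Comp (coords (2 * b + 5)) (Al b E C) (res _ f) := by
  rcases List.mem_append.1 hf with hf | hf
  · rcases mem_known.1 hf with ⟨i, hi, rfl⟩ | ⟨σ, h1, h2, rfl⟩ | ⟨σ, h1, h2, rfl⟩ | ⟨e, he, rfl | rfl⟩
    · exact comp_not hi
    · exact comp_cube σ h1 h2
    · exact comp_D σ h1 h2
    · exact comp_g he (Or.inl rfl)
    · exact comp_g he (Or.inr rfl)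
  · obtain ⟨e, he, rfl⟩ := List.mem_map.1 hf
    exact comp_o he (hC e he)

theorem upper (hC : ∀ e ∈ E, e.1 ∈ C ∨ e.2 ∈ C) : ∃ L : List (P (2 * b + 5) → Bool),
    SLP (coords (2 * b + 5)) L ∧ L.length ≤ cnt b E + C.card ∧
    ∀ f ∈ outs b E, res (2 * b + 5) f ∈ L ∨ res (2 * b + 5) f ∈ coords (2 * b + 5) := by
  classical
  obtain ⟨L, h1, h2, h3⟩ := slp_of_comp (Free := coords (2 * b + 5)) (Al := Al b E C)
    ((outs b E).map (res (2 * b + 5))) (by
      intro F hF
      obtain ⟨f, hf, rfl⟩ := List.mem_map.1 hF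
      exact comp_outs hC hf)
  obtain ⟨L', h4, h5, h6, h7⟩ := h1.reduce
  refine ⟨L', h4, ?_, fun f hf => ?_⟩
  · have h8 : L'.toFinset ⊆ (((outs b E).map (res (2 * b + 5))).toFinset.filter
        fun F => F ∉ coords (2 * b + 5)) ∪ C.image fun u => res (2 * b + 5) (fh b u) := by
      intro F hF
      have h9 := h6 F (List.mem_toFinset.1 hF)
      rw [Finset.mem_union, Finset.mem_filter, List.mem_toFinset, Finset.mem_image]
      rcases h2 F h9.1 with ⟨f, hf, rfl⟩ | ⟨u, hu, rfl⟩
      · exact Or.inl ⟨List.mem_map.2 ⟨f, hf, rfl⟩, h9.2⟩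
      · exact Or.inr ⟨u, hu, rfl⟩
    have h9 := Finset.card_le_card h8
    have h10 := Finset.card_union_le (((outs b E).map (res (2 * b + 5))).toFinset.filter
        fun F => F ∉ coords (2 * b + 5)) (C.image fun u => res (2 * b + 5) (fh b u))
    have h11 : (C.image fun u => res (2 * b + 5) (fh b u)).card ≤ C.card := Finset.card_image_le
    rw [List.toFinset_card_of_nodup h5] at h9
    unfold cnt
    omega
  · rcases h3 _ (List.mem_map.2 ⟨f, hf, rfl⟩) with h | h
    · exact h7 _ h
    · exact Or.inr h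

end

end Pool.Agent.Lib.MultiMCSP
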